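import Pool.Agent.R344.TH.G

/-! Thin sets, part P: pairs of trajectories. -/

set_option autoImplicit false

namespace Pool.Agent.R344.TH

open Finset
open Pool.Agent.H499R2.CO (Tz)
open Pool.Agent.H499R2.ND (log3_le)
open Pool.Agent.R344.SP

/-- integers whose trajectory decreases slowly at the beginning -/
def A2 (d : ℤ) : Set ℤ :=
  {v : ℤ | 0 < v ∧ ∀ j ≤ Nat.log 2 v.toNat, (v : ℝ) ^ (0.9 : ℝ) ≤ (((Tz d)^[j] v : ℤ) : ℝ)}

theorem A2_od {d : ℤ} (hd : d % 2 = 1) {x : ℤ} (hx : x ∈ A2 d) (h1 : 55 ≤ Nat.log 2 x.toNat)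
    (h2 : 4 * |(d : ℝ)| ≤ Real.log x) :
    0.55 * (Nat.log 2 x.toNat : ℝ) ≤ (od d (Nat.log 2 x.toNat) x : ℝ) := by
  obtain ⟨hx0, hj⟩ := hx
  set L := Nat.log 2 x.toNat with hL
  have hxR : (0 : ℝ) < x := by exact_mod_cast hx0
  have hxN : ((x.toNat : ℕ) : ℝ) = x := by
    have : ((x.toNat : ℕ) : ℤ) = x := Int.toNat_of_nonneg hx0.le
    exact_mod_cast this
  have hlow : (2 : ℝ) ^ L ≤ x := by
    rw [← hxN]
    exact_mod_cast Nat.pow_log_le_self 2 (by omega)
  have hup : (x : ℝ) < 2 ^ (L + 1) := by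
    rw [← hxN]
    exact_mod_cast Nat.lt_pow_succ_log_self (by norm_num) _
  have hln2a := Real.log_two_gt_d9
  have hln2b := Real.log_two_lt_d9
  have hlogx1 : L * Real.log 2 ≤ Real.log x := by
    rw [← Real.log_pow]; exact Real.log_le_log (by positivity) hlow
  have hlogx2 : Real.log x ≤ (L + 1) * Real.log 2 := by
    have := Real.log_le_log hxR hup.le
    rw [Real.log_pow] at this
    push_cast at this
    exact this
  have hL55 : (55 : ℝ) ≤ L := by exact_mod_cast h1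
  have hlogx0 : 0 < Real.log x := by nlinarith
  set z := (x : ℝ) ^ (0.9 : ℝ) with hz
  have hz0 : 0 < z := by positivity
  have hLd : (L : ℝ) * |(d : ℝ)| ≤ z := by
    have e1 : (L : ℝ) ≤ 1.45 * Real.log x := by nlinarith
    have e2 : 0.4 * (Real.log x) ^ 2 ≤ z := by
      have h3 := Real.pow_div_factorial_le_exp (0.9 * Real.log x) (by positivity) 2
      have h4 : Real.exp (0.9 * Real.log x) = z := by
        rw [hz, Real.rpow_def_of_pos hxR, mul_comm]
      rw [h4] at h3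
      have h5 : ((2 : ℕ).factorial : ℝ) = 2 := by norm_num [Nat.factorial]
      rw [h5] at h3
      nlinarith
    have e3 : (L : ℝ) * |(d : ℝ)| ≤ (1.45 * Real.log x) * (Real.log x / 4) :=
      mul_le_mul e1 (by linarith) (abs_nonneg _) (by positivity)
    nlinarith
  have hg := growth_two hd hz0 hLd hx0 (fun i hi => hj i hi.le)
  have hT := hj L le_rfl
  have h6 : z * 2 ^ L ≤ 2 * (3 ^ od d L x * x) :=
    (mul_le_mul_of_nonneg_right hT (by positivity)).trans hg
  have h7 := Real.log_le_log (by positivity) h6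
  rw [Real.log_mul hz0.ne' (by positivity), Real.log_pow, hz, Real.log_rpow hxR,
    Real.log_mul (by norm_num) (by positivity), Real.log_mul (by positivity) hxR.ne', Real.log_pow] at h7
  have h8 : (od d L x : ℝ) * Real.log 3 ≤ (od d L x : ℝ) * (8 / 5 * Real.log 2) :=
    mul_le_mul_of_nonneg_left log3_le (Nat.cast_nonneg _)
  have h9 : (L : ℝ) * Real.log 2 ≤ Real.log 2 + (od d L x : ℝ) * (8 / 5 * Real.log 2)
      + 0.1 * ((L + 1) * Real.log 2) := by linarith
  have h10 : (L : ℝ) ≤ 1 + (od d L x : ℝ) * (8 / 5) + 0.1 * (L + 1) := by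
    have h11 : (L : ℝ) * Real.log 2 ≤ (1 + (od d L x : ℝ) * (8 / 5) + 0.1 * (L + 1)) * Real.log 2 := by
      linarith
    exact le_of_mul_le_mul_right h11 (by linarith)
  linarith

/-- `A2` is thin -/
theorem A2_thin {d : ℤ} (hd : d % 2 = 1) : ∃ l₀ : ℝ, 0 < l₀ ∧ ∀ Y : ℝ, 0 < Y → l₀ ≤ Real.log Y →
    ∀ X : ℝ, Y ≤ X → ((fA (A2 d) Y X).card : ℝ) ≤ X * Real.exp (-(Real.log X) ^ (2 * (1 / 4) : ℝ)) := by
  classical
  obtain ⟨ρ, hρ0, hρ1, hod⟩ := od_large hd (c₁ := 0.55) (by norm_num)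
  set r : ℝ := max ρ (3 / 4) with hr
  have hr34 : 3 / 4 ≤ r := le_max_right _ _
  have hr1 : r < 1 := max_lt hρ1 (by norm_num)
  have hr0 : 0 < r := by linarith
  have hρr : ρ ≤ r := le_max_left _ _
  have hlogr : Real.log r < 0 := Real.log_neg hr0 hr1
  set c : ℝ := -Real.log r with hc
  have hc0 : 0 < c := by rw [hc]; linarith
  have hev1 : ∀ᶠ t : ℝ in Filter.atTop, t ^ (1 : ℝ) * Real.exp (-(c / 2) * t) ≤ Real.exp (-c) / 2 :=
    (tendsto_rpow_mul_exp_neg_mul_atTop_nhds_zero 1 (c / 2) (by positivity)).eventually_le_const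
      (by positivity)
  have hev2 : ∀ᶠ t : ℝ in Filter.atTop, (2 / c) ^ 2 ≤ t := Filter.eventually_ge_atTop _
  obtain ⟨t₀, ht₀⟩ := Filter.eventually_atTop.1 (hev1.and hev2)
  refine ⟨max (max t₀ 60) (4 * |(d : ℝ)|), by positivity, ?_⟩
  intro Y hY hl X hX
  have hX0 : 0 < X := by linarith
  have hlX : Real.log Y ≤ Real.log X := Real.log_le_log hY hX
  have hlt : t₀ ≤ Real.log Y := (le_max_left _ _).trans ((le_max_left _ _).trans hl)
  have hl60 : 60 ≤ Real.log Y := (le_max_right _ _).trans ((le_max_left _ _).trans hl)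
  have hld : 4 * |(d : ℝ)| ≤ Real.log Y := (le_max_right _ _).trans hl
  have hln2a := Real.log_two_gt_d9
  have hln2b := Real.log_two_lt_d9
  obtain ⟨Λ, hΛ⟩ : ∃ Λ : ℕ, Λ = Nat.log 2 ⌊X⌋₊ := ⟨_, rfl⟩
  have hfl : 1 ≤ ⌊X⌋₊ := by
    rw [Nat.one_le_floor_iff]
    have := Real.add_one_le_exp (Real.log X)
    rw [Real.exp_log hX0] at this
    linarith
  have hΛ1 : (2 : ℝ) ^ Λ ≤ X := by
    have h1 : 2 ^ Λ ≤ ⌊X⌋₊ := by rw [hΛ]; exact Nat.pow_log_le_self 2 (by omega)
    calc (2 : ℝ) ^ Λ = ((2 ^ Λ : ℕ) : ℝ) := by push_cast; rfl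
      _ ≤ (⌊X⌋₊ : ℝ) := by exact_mod_cast h1
      _ ≤ X := Nat.floor_le hX0.le
  have hΛ2 : X < 2 ^ (Λ + 1) := by
    have h1 : ⌊X⌋₊ < 2 ^ (Λ + 1) := by rw [hΛ]; exact Nat.lt_pow_succ_log_self (by norm_num) _
    rw [Nat.floor_lt hX0.le] at h1
    push_cast at h1
    exact h1
  have hlogΛ : Real.log X ≤ (Λ : ℝ) + 1 := by
    have := Real.log_le_log hX0 hΛ2.le
    rw [Real.log_pow] at this
    push_cast at this
    nlinarith
  have hsub : fA (A2 d) Y X ⊆ (range (Λ + 1)).biUnion (fun L => (Wn ((2 : ℝ) ^ L)).filter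
      (fun n => 0.55 * (L : ℝ) ≤ (od d L n : ℝ))) := by
    intro x hx
    rw [mem_fA] at hx
    obtain ⟨⟨hx1, hx2⟩, hx3⟩ := hx
    have hx0 := hx3.1
    have hxR : (0 : ℝ) < x := by exact_mod_cast hx0
    have hxN : ((x.toNat : ℕ) : ℝ) = x := by
      have : ((x.toNat : ℕ) : ℤ) = x := Int.toNat_of_nonneg hx0.le
      exact_mod_cast this
    have hlow : (2 : ℝ) ^ (Nat.log 2 x.toNat) ≤ x := by
      rw [← hxN]
      exact_mod_cast Nat.pow_log_le_self 2 (by omega)
    have hup : (x : ℝ) < 2 ^ (Nat.log 2 x.toNat + 1) := by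
      rw [← hxN]
      exact_mod_cast Nat.lt_pow_succ_log_self (by norm_num) _
    have hlx : Real.log Y ≤ Real.log x := Real.log_le_log hY hx1
    have hlx2 : Real.log x ≤ ((Nat.log 2 x.toNat : ℕ) : ℝ) + 1 := by
      have := Real.log_le_log hxR hup.le
      rw [Real.log_pow] at this
      push_cast at this
      have h0 : (0 : ℝ) ≤ ((Nat.log 2 x.toNat : ℕ) : ℝ) := Nat.cast_nonneg _
      nlinarith
    rw [mem_biUnion]
    refine ⟨Nat.log 2 x.toNat, ?_, ?_⟩
    · rw [mem_range, Nat.lt_succ_iff, hΛ]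
      apply Nat.log_mono_right
      apply Nat.le_floor
      rw [hxN]; exact hx2
    · rw [mem_filter, mem_Wn]
      refine ⟨⟨hlow, ?_⟩, ?_⟩
      · rw [pow_succ] at hup; linarith
      · apply A2_od hd hx3
        · have : (55 : ℝ) ≤ ((Nat.log 2 x.toNat : ℕ) : ℝ) := by linarith
          exact_mod_cast this
        · linarith
  have hcard : ((fA (A2 d) Y X).card : ℝ) ≤ ∑ L ∈ range (Λ + 1), 2 * (2 * r) ^ Λ := by
    have h1 := (card_le_card hsub).trans card_biUnion_le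
    have h2 : ((fA (A2 d) Y X).card : ℝ) ≤ ∑ L ∈ range (Λ + 1), (((Wn ((2 : ℝ) ^ L)).filter
      (fun n => 0.55 * (L : ℝ) ≤ (od d L n : ℝ))).card : ℝ) := by exact_mod_cast h1
    refine h2.trans (sum_le_sum fun L hL => ?_)
    rw [mem_range, Nat.lt_succ_iff] at hL
    refine (hod L (2 ^ L) (by positivity)).trans ?_
    calc ((2 : ℝ) ^ L + 2 ^ L) * ρ ^ L ≤ ((2 : ℝ) ^ L + 2 ^ L) * r ^ L :=
          mul_le_mul_of_nonneg_left (pow_le_pow_left₀ hρ0.le hρr L) (by positivity)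
      _ = 2 * (2 * r) ^ L := by rw [mul_pow]; ring
      _ ≤ 2 * (2 * r) ^ Λ := by
          apply mul_le_mul_of_nonneg_left _ (by norm_num)
          exact pow_le_pow_right₀ (by linarith) hL
  rw [sum_const, nsmul_eq_mul, card_range] at hcard
  refine hcard.trans ?_
  push_cast
  set t : ℝ := (Λ : ℝ) + 1 with ht
  have ht0 : 0 < t := by positivity
  obtain ⟨hA, hB⟩ := ht₀ t (by linarith)
  rw [Real.rpow_one] at hA
  have hsq : Real.sqrt t ≤ c / 2 * t := by
    have e1 : 2 / c ≤ Real.sqrt t := Real.le_sqrt_of_sq_le hB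
    rw [div_le_iff₀ hc0] at e1
    have e2 : Real.sqrt t * Real.sqrt t = t := Real.mul_self_sqrt ht0.le
    nlinarith [Real.sqrt_nonneg t]
  have hlogX0 : 0 ≤ Real.log X := by linarith
  have hexpo : (Real.log X) ^ (2 * (1 / 4) : ℝ) ≤ Real.sqrt t := by
    rw [show (2 * (1 / 4) : ℝ) = 1 / 2 by norm_num, ← Real.sqrt_eq_rpow]
    exact Real.sqrt_le_sqrt hlogΛ
  have hrΛ : r ^ Λ = Real.exp (-c * (t - 1)) := by
    rw [ht, hc]
    have : -(-Real.log r) * ((Λ : ℝ) + 1 - 1) = Λ * Real.log r := by ring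
    rw [this, Real.exp_nat_mul, Real.exp_log hr0]
  calc t * (2 * (2 * r) ^ Λ) = (2 : ℝ) ^ Λ * (2 * t * r ^ Λ) := by rw [mul_pow]; ring
    _ ≤ X * (2 * t * r ^ Λ) := mul_le_mul_of_nonneg_right hΛ1 (by positivity)
    _ ≤ X * Real.exp (-(Real.log X) ^ (2 * (1 / 4) : ℝ)) := by
        apply mul_le_mul_of_nonneg_left _ hX0.le
        rw [hrΛ]
        have e1 : Real.exp (-c * (t - 1)) = Real.exp c * (Real.exp (-(c / 2) * t) * Real.exp (-(c / 2) * t)) := by
          rw [← Real.exp_add, ← Real.exp_add]; congr 1; ring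
        have e2 : Real.exp (-(c / 2) * t) ≤ Real.exp (-(Real.log X) ^ (2 * (1 / 4) : ℝ)) := by
          apply Real.exp_le_exp.2
          linarith
        have e3 : 2 * t * Real.exp (-c * (t - 1))
            = (2 * Real.exp c * (t * Real.exp (-(c / 2) * t))) * Real.exp (-(c / 2) * t) := by
          rw [e1]; ring
        rw [e3]
        have e4 : 2 * Real.exp c * (t * Real.exp (-(c / 2) * t)) ≤ 1 := by
          calc 2 * Real.exp c * (t * Real.exp (-(c / 2) * t)) ≤ 2 * Real.exp c * (Real.exp (-c) / 2) :=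
                mul_le_mul_of_nonneg_left hA (by positivity)
            _ = Real.exp c * Real.exp (-c) := by ring
            _ = 1 := by rw [← Real.exp_add, add_neg_cancel, Real.exp_zero]
        calc (2 * Real.exp c * (t * Real.exp (-(c / 2) * t))) * Real.exp (-(c / 2) * t)
            ≤ 1 * Real.exp (-(c / 2) * t) := mul_le_mul_of_nonneg_right e4 (Real.exp_pos _).le
          _ ≤ _ := by rw [one_mul]; exact e2

/-- descent of trajectories avoiding `A2` -/
theorem descent {d : ℤ} {Y : ℝ} (hY : 2 ≤ Y) {n : ℤ} (hn : n ∉ HY d (A2 d) Y) :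
    ∀ (v : ℕ) (j : ℕ), ((Tz d)^[j] n).toNat = v → (∀ i ≤ j, Y ≤ (((Tz d)^[i] n : ℤ) : ℝ)) →
      ∃ τ : ℕ, (τ : ℝ) ≤ 10 * (Real.log v / Real.log 2) ∧ (((Tz d)^[j + τ] n : ℤ) : ℝ) < Y := by
  intro v
  induction v using Nat.strong_induction_on with
  | _ v ih =>
    intro j hv hP
    have hvY := hP j le_rfl
    have hpos : 0 < (Tz d)^[j] n := by
      have : (0 : ℝ) < (((Tz d)^[j] n : ℤ) : ℝ) := by linarith
      exact_mod_cast this
    have hvZ : ((v : ℕ) : ℤ) = (Tz d)^[j] n := by rw [← hv]; exact Int.toNat_of_nonneg hpos.le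
    have hvR : (v : ℝ) = (((Tz d)^[j] n : ℤ) : ℝ) := by rw [← hvZ]; simp
    have hv2 : (2 : ℝ) ≤ v := by rw [hvR]; linarith
    have hln2a := Real.log_two_gt_d9
    have hlogv : 0 < Real.log v := Real.log_pos (by linarith)
    have hl2 : 0 < Real.log 2 := by linarith
    have hnotA : (Tz d)^[j] n ∉ A2 d := fun hcon => hn ⟨j, hcon, hP⟩
    have hex : ∃ i ≤ Nat.log 2 v, (((Tz d)^[i] ((Tz d)^[j] n) : ℤ) : ℝ) < (v : ℝ) ^ (0.9 : ℝ) := by
      by_contra hcon
      push Not at hcon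
      apply hnotA
      refine ⟨hpos, ?_⟩
      rw [hv, ← hvR]
      exact hcon
    obtain ⟨i, hi, hlt⟩ := hex
    have hiR : (i : ℝ) ≤ Real.log v / Real.log 2 := by
      have h1 : (2 : ℝ) ^ (Nat.log 2 v) ≤ v := by
        exact_mod_cast Nat.pow_log_le_self 2 (by
          have : (0 : ℝ) < v := by linarith
          have : 0 < v := by exact_mod_cast this
          omega)
      have h2 := Real.log_le_log (by positivity) h1
      rw [Real.log_pow] at h2
      rw [le_div_iff₀ hl2]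
      have h3 : (i : ℝ) ≤ Nat.log 2 v := by exact_mod_cast hi
      nlinarith
    have hdiv0 : 0 < Real.log v / Real.log 2 := by positivity
    by_cases hall : ∀ i' ≤ i, Y ≤ (((Tz d)^[j + i'] n : ℤ) : ℝ)
    · have hP' : ∀ i' ≤ j + i, Y ≤ (((Tz d)^[i'] n : ℤ) : ℝ) := by
        intro i' hi'
        rcases le_or_gt i' j with h | h
        · exact hP i' h
        · have := hall (i' - j) (by omega)
          rwa [Nat.add_sub_cancel' h.le] at this
      have hval : (Tz d)^[j + i] n = (Tz d)^[i] ((Tz d)^[j] n) := by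
        rw [add_comm, Function.iterate_add_apply]
      rw [← hval] at hlt
      obtain ⟨v', hv'⟩ : ∃ v' : ℕ, ((Tz d)^[j + i] n).toNat = v' := ⟨_, rfl⟩
      have hpos' : 0 < (Tz d)^[j + i] n := by
        have : (0 : ℝ) < (((Tz d)^[j + i] n : ℤ) : ℝ) := by linarith [hP' (j + i) le_rfl]
        exact_mod_cast this
      have hvZ' : ((v' : ℕ) : ℤ) = (Tz d)^[j + i] n := by rw [← hv']; exact Int.toNat_of_nonneg hpos'.le
      have hvR' : (v' : ℝ) = (((Tz d)^[j + i] n : ℤ) : ℝ) := by rw [← hvZ']; simp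
      rw [← hvR'] at hlt
      have hv'2 : (2 : ℝ) ≤ v' := by rw [hvR']; linarith [hP' (j + i) le_rfl]
      have hpow : (v : ℝ) ^ (0.9 : ℝ) ≤ v := by
        calc (v : ℝ) ^ (0.9 : ℝ) ≤ (v : ℝ) ^ (1 : ℝ) :=
              Real.rpow_le_rpow_of_exponent_le (by linarith) (by norm_num)
          _ = v := Real.rpow_one _
      have hltv : v' < v := by
        have : (v' : ℝ) < v := by linarith
        exact_mod_cast this
      obtain ⟨τ, hτ1, hτ2⟩ := ih v' hltv (j + i) hv' hP'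
      refine ⟨i + τ, ?_, by rw [← add_assoc]; exact hτ2⟩
      have h4 : Real.log v' ≤ 0.9 * Real.log v := by
        rw [← Real.log_rpow (by linarith)]
        exact Real.log_le_log (by linarith) hlt.le
      have h5 : Real.log v' / Real.log 2 ≤ 0.9 * (Real.log v / Real.log 2) := by
        rw [← mul_div_assoc]; exact div_le_div_of_nonneg_right h4 hl2.le
      push_cast
      linarith
    · push Not at hall
      obtain ⟨i', hi', hlt'⟩ := hall
      refine ⟨i', ?_, hlt'⟩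
      have : (i' : ℝ) ≤ i := by exact_mod_cast hi'
      linarith

/-- the trajectory of `n` before it goes below `Y` -/
def OY (d : ℤ) (Y : ℝ) (n : ℤ) : Set ℤ :=
  {v : ℤ | ∃ j : ℕ, (Tz d)^[j] n = v ∧ ∀ i ≤ j, Y ≤ (((Tz d)^[i] n : ℤ) : ℝ)}

theorem OY_thin {d : ℤ} {Y : ℝ} (hY : 2 ≤ Y) (hl : 200 ≤ Real.log Y) {n : ℤ}
    (hn : n ∉ HY d (A2 d) Y) : ∀ X : ℝ, Y ≤ X →
      ((fA (OY d Y n) Y X).card : ℝ) ≤ X * Real.exp (-(Real.log X) ^ (2 * (1 / 4) : ℝ)) := by
  classical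
  intro X hX
  have hX0 : 0 < X := by linarith
  have hlX : Real.log Y ≤ Real.log X := Real.log_le_log (by linarith) hX
  set L := Real.log X with hLdef
  have hL : 200 ≤ L := by linarith
  have hln2a := Real.log_two_gt_d9
  have hcount : ((fA (OY d Y n) Y X).card : ℝ) ≤ 15 * L := by
    by_cases hJ : ∃ j : ℕ, (∀ i ≤ j, Y ≤ (((Tz d)^[i] n : ℤ) : ℝ)) ∧ (((Tz d)^[j] n : ℤ) : ℝ) ≤ X
    · obtain ⟨hj1, hj2⟩ := Nat.find_spec hJ
      set j₁ := Nat.find hJ with hj₁
      obtain ⟨τ, hτ1, hτ2⟩ := descent hY hn _ j₁ rfl hj1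
      have hpos : 0 < (Tz d)^[j₁] n := by
        have : (0 : ℝ) < (((Tz d)^[j₁] n : ℤ) : ℝ) := by linarith [hj1 j₁ le_rfl]
        exact_mod_cast this
      have hvZ : ((((Tz d)^[j₁] n).toNat : ℕ) : ℤ) = (Tz d)^[j₁] n := Int.toNat_of_nonneg hpos.le
      have hvR : ((((Tz d)^[j₁] n).toNat : ℕ) : ℝ) = (((Tz d)^[j₁] n : ℤ) : ℝ) := by
        exact_mod_cast hvZ
      have hsub : fA (OY d Y n) Y X ⊆ (Finset.Ico j₁ (j₁ + τ)).image (fun j => (Tz d)^[j] n) := by
        intro x hx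
        rw [mem_fA] at hx
        obtain ⟨⟨hx1, hx2⟩, j, rfl, hj⟩ := hx
        rw [mem_image]
        refine ⟨j, ?_, rfl⟩
        rw [Finset.mem_Ico]
        constructor
        · exact Nat.find_min' hJ ⟨hj, hx2⟩
        · by_contra hcon
          push Not at hcon
          linarith [hj (j₁ + τ) hcon]
      have h1 := (card_le_card hsub).trans card_image_le
      rw [Nat.card_Ico, Nat.add_sub_cancel_left] at h1
      have h2 : ((fA (OY d Y n) Y X).card : ℝ) ≤ τ := by exact_mod_cast h1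
      refine h2.trans (hτ1.trans ?_)
      rw [hvR]
      have h3 : Real.log (((Tz d)^[j₁] n : ℤ) : ℝ) ≤ L :=
        Real.log_le_log (by linarith [hj1 j₁ le_rfl]) hj2
      rw [← mul_div_assoc, div_le_iff₀ (by linarith)]
      nlinarith
    · have : fA (OY d Y n) Y X = ∅ := by
        rw [Finset.eq_empty_iff_forall_notMem]
        intro x hx
        rw [mem_fA] at hx
        obtain ⟨⟨hx1, hx2⟩, j, rfl, hj⟩ := hx
        exact hJ ⟨j, hj, hx2⟩
      rw [this, card_empty, Nat.cast_zero]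
      positivity
  refine hcount.trans ?_
  have hsq : L ^ (2 * (1 / 4) : ℝ) ≤ L / 2 := by
    rw [show (2 * (1 / 4) : ℝ) = 1 / 2 by norm_num, ← Real.sqrt_eq_rpow, Real.sqrt_le_left (by positivity)]
    nlinarith
  have hXe : X = Real.exp L := (Real.exp_log hX0).symm
  rw [hXe, ← Real.exp_add]
  have h1 : Real.exp (L / 2) ≤ Real.exp (L + -L ^ (2 * (1 / 4) : ℝ)) := by
    apply Real.exp_le_exp.2; linarith
  have h2 := Real.pow_div_factorial_le_exp (L / 2) (by positivity) 2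
  have h5 : ((2 : ℕ).factorial : ℝ) = 2 := by norm_num [Nat.factorial]
  rw [h5] at h2
  refine le_trans ?_ (h2.trans h1)
  nlinarith

/-- the trajectories meet before they go below `Y` -/
def MeetZ (d : ℤ) (Y : ℝ) (x x' : ℤ) : Prop :=
  ∃ k k' : ℕ, (Tz d)^[k] x = (Tz d)^[k'] x' ∧ (∀ j ≤ k, Y ≤ (((Tz d)^[j] x : ℤ) : ℝ)) ∧
    ∀ j ≤ k', Y ≤ (((Tz d)^[j] x' : ℤ) : ℝ)

open scoped Classical in
/-- few pairs meet above `Y` -/
theorem pairs_count {d : ℤ} (hd : Odd d) (hd3 : IsCoprime d 3) (B : ℕ) :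
    ∃ l₀ K : ℝ, 0 < l₀ ∧ 0 < K ∧ ∀ Y : ℝ, 0 < Y → l₀ ≤ Real.log Y → ∀ N : ℕ,
      (((Icc (1 : ℤ) N ×ˢ Icc (1 : ℤ) N).filter (fun p => MeetZ d Y p.1 p.2)).card : ℝ)
        ≤ K * (N : ℝ) ^ 2 / (Real.log Y) ^ B := by
  obtain ⟨l₁, hl₁, hA2⟩ := A2_thin (Int.odd_iff.1 hd)
  obtain ⟨l₀, K, hl₀, hK, hH⟩ := HY_count hd hd3 (γ := 1 / 4) (by norm_num) (by norm_num) B
  refine ⟨max (max l₀ l₁) 200, 2 * K, by positivity, by positivity, ?_⟩
  intro Y hY hl N
  have hll0 : l₀ ≤ Real.log Y := (le_max_left _ _).trans ((le_max_left _ _).trans hl)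
  have hll1 : l₁ ≤ Real.log Y := (le_max_right _ _).trans ((le_max_left _ _).trans hl)
  have hl200 : 200 ≤ Real.log Y := (le_max_right _ _).trans hl
  have hY2 : 2 ≤ Y := by
    have := Real.add_one_le_exp (Real.log Y)
    rw [Real.exp_log hY] at this
    linarith
  have hlY0 : 0 < Real.log Y := by linarith
  set I := Icc (1 : ℤ) N with hI
  have hIc : I.card = N := by rw [hI, Int.card_Icc]; omega
  set E := I.filter (fun n => n ∈ HY d (A2 d) Y) with hE
  have hEc : (E.card : ℝ) ≤ K * N / (Real.log Y) ^ B := hH Y hY hll0 (A2 d) (hA2 Y hY hll1) N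
  have hfib : ((I ×ˢ I).filter (fun p => MeetZ d Y p.1 p.2)).card
      = ∑ x' ∈ I, (I.filter (fun x => MeetZ d Y x x')).card := by
    rw [card_filter, sum_product_right]
    apply sum_congr rfl
    intro x' _
    rw [card_filter]
  have hfibR : (((I ×ˢ I).filter (fun p => MeetZ d Y p.1 p.2)).card : ℝ)
      = ∑ x' ∈ I, ((I.filter (fun x => MeetZ d Y x x')).card : ℝ) := by
    rw [hfib]; push_cast; rfl
  rw [hfibR]
  have hterm : ∀ x' ∈ I, ((I.filter (fun x => MeetZ d Y x x')).card : ℝ)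
      ≤ K * N / (Real.log Y) ^ B + (if x' ∈ HY d (A2 d) Y then (N : ℝ) else 0) := by
    intro x' _
    by_cases hx' : x' ∈ HY d (A2 d) Y
    · rw [if_pos hx']
      have h1 : (I.filter (fun x => MeetZ d Y x x')).card ≤ N := by
        rw [← hIc]; exact card_filter_le _ _
      have h2 : ((I.filter (fun x => MeetZ d Y x x')).card : ℝ) ≤ N := by exact_mod_cast h1
      have h3 : 0 ≤ K * N / (Real.log Y) ^ B := by positivity
      linarith
    · rw [if_neg hx', add_zero]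
      have h1 := hH Y hY hll0 (OY d Y x') (OY_thin hY2 hl200 hx') N
      refine le_trans ?_ h1
      have h2 : I.filter (fun x => MeetZ d Y x x') ⊆ I.filter (fun n => n ∈ HY d (OY d Y x') Y) := by
        intro x hx
        rw [mem_filter] at hx ⊢
        obtain ⟨hx1, k, k', h3, h4, h5⟩ := hx
        exact ⟨hx1, k, ⟨k', h3.symm, h5⟩, h4⟩
      exact_mod_cast card_le_card h2
  refine (sum_le_sum hterm).trans ?_
  rw [sum_add_distrib, sum_const, nsmul_eq_mul, hIc, ← sum_filter, sum_const, nsmul_eq_mul, ← hE]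
  have h1 : (E.card : ℝ) * N ≤ K * N / (Real.log Y) ^ B * N :=
    mul_le_mul_of_nonneg_right hEc (Nat.cast_nonneg _)
  calc (N : ℝ) * (K * N / (Real.log Y) ^ B) + E.card * N
      ≤ (N : ℝ) * (K * N / (Real.log Y) ^ B) + K * N / (Real.log Y) ^ B * N := by linarith
    _ = _ := by ring

end Pool.Agent.R344.TH
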