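import Pool.Agent.R344.SP.E

/-! Thin sets, part A: elementary counting. -/

set_option autoImplicit false

namespace Pool.Agent.R344.TH

open Finset
open Pool.Agent.H499R2.CO (Tz)
open Pool.Agent.R344.SP

theorem Tz_even {d y : ℤ} (h : y % 2 = 0) : 2 * Tz d y = y := by
  unfold Tz; rw [if_pos h]; omega

theorem Tz_odd {d y : ℤ} (hd : d % 2 = 1) (h : y % 2 ≠ 0) : 2 * Tz d y = 3 * y + d := by
  unfold Tz; rw [if_neg h]; omega

/-- the number of preimages -/
theorem pre_card {d : ℤ} (hd : d % 2 = 1) (F : Finset ℤ) : ∀ (k : ℕ) (A : Finset ℤ),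
    (F.filter (fun x => (Tz d)^[k] x ∈ A)).card ≤ 2 ^ k * A.card
  | 0, A => by
    rw [pow_zero, one_mul]
    apply card_le_card
    intro x hx
    rw [mem_filter] at hx
    exact hx.2
  | k + 1, A => by
    set A' : Finset ℤ := A.image (fun a => 2 * a) ∪ A.image (fun a => (2 * a - d) / 3) with hA'
    have h1 : F.filter (fun x => (Tz d)^[k + 1] x ∈ A) ⊆ F.filter (fun x => (Tz d)^[k] x ∈ A') := by
      intro x hx
      rw [mem_filter, Function.iterate_succ_apply'] at hx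
      rw [mem_filter]
      refine ⟨hx.1, ?_⟩
      rw [hA', mem_union, mem_image, mem_image]
      by_cases h : (Tz d)^[k] x % 2 = 0
      · exact Or.inl ⟨_, hx.2, Tz_even h⟩
      · refine Or.inr ⟨_, hx.2, ?_⟩
        have := Tz_odd hd h
        omega
    have h2 : A'.card ≤ 2 * A.card := by
      rw [hA']
      refine (card_union_le _ _).trans ?_
      have a1 := card_image_le (s := A) (f := fun a => 2 * a)
      have a2 := card_image_le (s := A) (f := fun a => (2 * a - d) / 3)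
      omega
    calc (F.filter (fun x => (Tz d)^[k + 1] x ∈ A)).card
        ≤ (F.filter (fun x => (Tz d)^[k] x ∈ A')).card := card_le_card h1
      _ ≤ 2 ^ k * A'.card := pre_card hd F k A'
      _ ≤ 2 ^ k * (2 * A.card) := Nat.mul_le_mul_left _ h2
      _ = 2 ^ (k + 1) * A.card := by rw [pow_succ]; ring

/-- growth above the level `z` -/
theorem growth {d : ℤ} (hd : d % 2 = 1) {z : ℝ} (hz : 0 < z) {x : ℤ} (hx : 0 < x) : ∀ j : ℕ,
    (∀ i < j, z ≤ (((Tz d)^[i] x : ℤ) : ℝ)) →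
      (((Tz d)^[j] x : ℤ) : ℝ) * 2 ^ j ≤ 3 ^ od d j x * x * (1 + |(d : ℝ)| / (3 * z)) ^ j
  | 0, _ => by simp [od]
  | j + 1, h => by
    have ih := growth hd hz hx j (fun i hi => h i (by omega))
    have hy := h j (by omega)
    set y : ℤ := (Tz d)^[j] x with hydef
    have hy0 : (0 : ℝ) < y := lt_of_lt_of_le hz hy
    have hE : (0 : ℝ) ≤ |(d : ℝ)| / (3 * z) := by positivity
    have hxR : (0 : ℝ) < x := by exact_mod_cast hx
    rw [Function.iterate_succ_apply', ← hydef, od_succ, ← hydef]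
    by_cases hpar : y % 2 = 0
    · have e1 : (((Tz d y : ℤ)) : ℝ) * 2 = y := by
        have := Tz_even (d := d) hpar
        have h2 : 2 * ((Tz d y : ℤ) : ℝ) = y := by exact_mod_cast this
        linarith
      have e2 : (y % 2).toNat = 0 := by rw [hpar]; rfl
      rw [e2, add_zero]
      calc ((Tz d y : ℤ) : ℝ) * 2 ^ (j + 1) = (((Tz d y : ℤ)) : ℝ) * 2 * 2 ^ j := by rw [pow_succ]; ring
        _ = y * 2 ^ j := by rw [e1]
        _ ≤ 3 ^ od d j x * x * (1 + |(d : ℝ)| / (3 * z)) ^ j := ih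
        _ ≤ 3 ^ od d j x * x * (1 + |(d : ℝ)| / (3 * z)) ^ (j + 1) := by
            apply mul_le_mul_of_nonneg_left _ (by positivity)
            exact pow_le_pow_right₀ (by linarith) (by omega)
    · have e1 : (((Tz d y : ℤ)) : ℝ) * 2 ≤ 3 * y * (1 + |(d : ℝ)| / (3 * z)) := by
        have := Tz_odd hd hpar
        have h2 : 2 * ((Tz d y : ℤ) : ℝ) = 3 * y + d := by exact_mod_cast this
        have h3 : (d : ℝ) ≤ |(d : ℝ)| := le_abs_self _
        have h4 : |(d : ℝ)| ≤ 3 * y * (|(d : ℝ)| / (3 * z)) := by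
          have : 3 * (y : ℝ) * (|(d : ℝ)| / (3 * z)) = |(d : ℝ)| * (y / z) := by field_simp
          rw [this]
          have h5 : 1 ≤ (y : ℝ) / z := by rw [le_div_iff₀ hz]; linarith
          exact le_mul_of_one_le_right (abs_nonneg _) h5
        linarith
      have e2 : (y % 2).toNat = 1 := by
        have : y % 2 = 1 := by omega
        rw [this]; rfl
      rw [e2]
      calc ((Tz d y : ℤ) : ℝ) * 2 ^ (j + 1) = (((Tz d y : ℤ)) : ℝ) * 2 * 2 ^ j := by rw [pow_succ]; ring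
        _ ≤ (3 * y * (1 + |(d : ℝ)| / (3 * z))) * 2 ^ j := mul_le_mul_of_nonneg_right e1 (by positivity)
        _ = 3 * (1 + |(d : ℝ)| / (3 * z)) * (y * 2 ^ j) := by ring
        _ ≤ 3 * (1 + |(d : ℝ)| / (3 * z)) * (3 ^ od d j x * x * (1 + |(d : ℝ)| / (3 * z)) ^ j) :=
            mul_le_mul_of_nonneg_left ih (by positivity)
        _ = _ := by rw [pow_succ, pow_succ]; ring

theorem growth_two {d : ℤ} (hd : d % 2 = 1) {z : ℝ} (hz : 0 < z) {K : ℕ} (hK : (K : ℝ) * |(d : ℝ)| ≤ z)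
    {x : ℤ} (hx : 0 < x) (h : ∀ i < K, z ≤ (((Tz d)^[i] x : ℤ) : ℝ)) :
    (((Tz d)^[K] x : ℤ) : ℝ) * 2 ^ K ≤ 2 * (3 ^ od d K x * x) := by
  have h1 := growth hd hz hx K h
  have h2 : (1 + |(d : ℝ)| / (3 * z)) ^ K ≤ 2 := by
    have h3 : 1 + |(d : ℝ)| / (3 * z) ≤ Real.exp (|(d : ℝ)| / (3 * z)) := by
      have := Real.add_one_le_exp (|(d : ℝ)| / (3 * z)); linarith
    calc (1 + |(d : ℝ)| / (3 * z)) ^ K ≤ (Real.exp (|(d : ℝ)| / (3 * z))) ^ K :=
          pow_le_pow_left₀ (by positivity) h3 K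
      _ = Real.exp (K * (|(d : ℝ)| / (3 * z))) := by rw [← Real.exp_nat_mul]
      _ ≤ Real.exp (1 / 3) := by
          apply Real.exp_le_exp.2
          rw [← mul_div_assoc, div_le_div_iff₀ (by positivity) (by norm_num)]
          linarith
      _ ≤ 2 := by
          have := Real.exp_one_lt_d9
          have h4 : Real.exp (1 / 3) ^ 3 = Real.exp 1 := by rw [← Real.exp_nat_mul]; norm_num
          by_contra hcon
          push Not at hcon
          have h5 : (2 : ℝ) ^ 3 ≤ Real.exp (1 / 3) ^ 3 := pow_le_pow_left₀ (by norm_num) hcon.le 3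
          rw [h4] at h5
          norm_num at h5
          linarith
  have hxR : (0 : ℝ) < x := by exact_mod_cast hx
  calc (((Tz d)^[K] x : ℤ) : ℝ) * 2 ^ K ≤ 3 ^ od d K x * x * (1 + |(d : ℝ)| / (3 * z)) ^ K := h1
    _ ≤ 3 ^ od d K x * x * 2 := mul_le_mul_of_nonneg_left h2 (by positivity)
    _ = _ := by ring

/-- crude growth -/
theorem crude {d : ℤ} (hd : d % 2 = 1) {z : ℝ} (hz : |(d : ℝ)| ≤ z) {x : ℤ} : ∀ j : ℕ,
    (∀ i < j, z ≤ (((Tz d)^[i] x : ℤ) : ℝ)) → (((Tz d)^[j] x : ℤ) : ℝ) ≤ 2 ^ j * x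
  | 0, _ => by simp
  | j + 1, h => by
    have ih := crude hd hz j (fun i hi => h i (by omega))
    have hy := h j (by omega)
    set y : ℤ := (Tz d)^[j] x with hydef
    have hd0 := abs_nonneg (d : ℝ)
    have h3 : (d : ℝ) ≤ |(d : ℝ)| := le_abs_self _
    rw [Function.iterate_succ_apply', ← hydef]
    have h5 : ((Tz d y : ℤ) : ℝ) ≤ 2 * y := by
      by_cases hpar : y % 2 = 0
      · have := Tz_even (d := d) hpar
        have h2 : 2 * ((Tz d y : ℤ) : ℝ) = y := by exact_mod_cast this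
        linarith
      · have := Tz_odd hd hpar
        have h2 : 2 * ((Tz d y : ℤ) : ℝ) = 3 * y + d := by exact_mod_cast this
        linarith
    rw [pow_succ]
    linarith

open scoped Classical in
/-- few integers have many odd terms -/
theorem od_large {d : ℤ} (hd : d % 2 = 1) {c₁ : ℝ} (hc : 1 / 2 < c₁) : ∃ ρ : ℝ, 0 < ρ ∧ ρ < 1 ∧
    ∀ (t : ℕ) (A : ℝ), 0 ≤ A →
      (((Wn A).filter (fun n => c₁ * t ≤ (od d t n : ℝ))).card : ℝ) ≤ (A + 2 ^ t) * ρ ^ t := by
  obtain ⟨x, hx1, hxc⟩ : ∃ x : ℝ, 1 < x ∧ x < 2 * c₁ := ⟨(1 + 2 * c₁) / 2, by linarith, by linarith⟩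
  have hx0 : 0 < x := by linarith
  set ρ : ℝ := (1 + x) / 2 * x ^ (-c₁) with hρ
  have hρ0 : 0 < ρ := by rw [hρ]; positivity
  have hlog : Real.log ρ < 0 := by
    rw [hρ, Real.log_mul (by positivity) (by positivity), Real.log_rpow hx0]
    have h1 : Real.log ((1 + x) / 2) ≤ (1 + x) / 2 - 1 := Real.log_le_sub_one_of_pos (by positivity)
    have h2 : Real.log (x⁻¹) ≤ x⁻¹ - 1 := Real.log_le_sub_one_of_pos (by positivity)
    rw [Real.log_inv] at h2
    have h3 : 1 - x⁻¹ ≤ Real.log x := by linarith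
    have h4 : c₁ * (1 - x⁻¹) ≤ c₁ * Real.log x := mul_le_mul_of_nonneg_left h3 (by linarith)
    have h5 : (x - 1) / 2 < c₁ * (1 - x⁻¹) := by
      have : c₁ * (1 - x⁻¹) = (c₁ / x) * (x - 1) := by field_simp
      rw [this]
      have h6 : 1 / 2 < c₁ / x := by rw [lt_div_iff₀ hx0]; linarith
      nlinarith
    linarith
  refine ⟨ρ, hρ0, ?_, fun t A hA => ?_⟩
  · by_contra h
    have := Real.log_nonneg (not_lt.1 h)
    linarith
  have hgen := od_gen hd x t
  have hsum := sum_window_le (g := fun n => x ^ od d t n) (fun n => by positivity) t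
    (fun n m => by simp only [od_periodic hd]) hA
  rw [hgen] at hsum
  have hxt : 0 < x ^ (c₁ * t) := Real.rpow_pos_of_pos hx0 _
  have hmk : (((Wn A).filter (fun n => c₁ * t ≤ (od d t n : ℝ))).card : ℝ) * x ^ (c₁ * t)
      ≤ ∑ n ∈ Wn A, x ^ od d t n := by
    calc (((Wn A).filter (fun n => c₁ * t ≤ (od d t n : ℝ))).card : ℝ) * x ^ (c₁ * t)
        = ∑ n ∈ (Wn A).filter (fun n => c₁ * t ≤ (od d t n : ℝ)), x ^ (c₁ * t) := by
          rw [sum_const, nsmul_eq_mul]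
      _ ≤ ∑ n ∈ (Wn A).filter (fun n => c₁ * t ≤ (od d t n : ℝ)), x ^ od d t n := by
          apply sum_le_sum
          intro n hn
          rw [mem_filter] at hn
          rw [← Real.rpow_natCast x (od d t n)]
          exact Real.rpow_le_rpow_of_exponent_le hx1.le hn.2
      _ ≤ _ := sum_le_sum_of_subset_of_nonneg (filter_subset _ _) fun n _ _ => by positivity
  have h1 : (((Wn A).filter (fun n => c₁ * t ≤ (od d t n : ℝ))).card : ℝ)
      ≤ (A / 2 ^ t + 1) * (1 + x) ^ t / x ^ (c₁ * t) := by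
    rw [le_div_iff₀ hxt]; exact hmk.trans hsum
  refine h1.trans (le_of_eq ?_)
  have h2 : ρ ^ t = (1 + x) ^ t / 2 ^ t / x ^ (c₁ * t) := by
    rw [hρ, mul_pow, div_pow, ← Real.rpow_natCast (x ^ (-c₁)) t, ← Real.rpow_mul hx0.le,
      show -c₁ * (t : ℝ) = -(c₁ * t) by ring, Real.rpow_neg hx0.le, ← div_eq_mul_inv]
  rw [h2]
  field_simp

open scoped Classical in
/-- the elements of `A₀` in `[a,b]` -/
noncomputable def fA (A₀ : Set ℤ) (a b : ℝ) : Finset ℤ := (Finset.Icc ⌈a⌉ ⌊b⌋).filter (fun x => x ∈ A₀)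

theorem mem_fA {A₀ : Set ℤ} {a b : ℝ} {x : ℤ} : x ∈ fA A₀ a b ↔ (a ≤ x ∧ (x : ℝ) ≤ b) ∧ x ∈ A₀ := by
  classical
  unfold fA
  rw [mem_filter, Finset.mem_Icc, Int.ceil_le, Int.le_floor]

/-- the trajectory of `x` stays above `z` until it meets `A₀`, and takes a value smaller than `2 z`
before -/
def SZ (d : ℤ) (A₀ : Set ℤ) (z : ℝ) : Set ℤ := {x : ℤ | ∃ k : ℕ, (Tz d)^[k] x ∈ A₀ ∧
  (∀ j ≤ k, z ≤ (((Tz d)^[j] x : ℤ) : ℝ)) ∧ ∃ j₀ ≤ k, (((Tz d)^[j₀] x : ℤ) : ℝ) < 2 * z}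

theorem SZ_ge {d : ℤ} {A₀ : Set ℤ} {z : ℝ} {x : ℤ} (h : x ∈ SZ d A₀ z) : z ≤ x := by
  obtain ⟨k, _, h2, _⟩ := h
  exact h2 0 (Nat.zero_le _)

open scoped Classical in
/-- the count at the lowest scales -/
theorem base_count {d : ℤ} (hd : d % 2 = 1) (A₀ : Set ℤ) {z : ℝ} (hz : 0 < z) {K : ℕ} (hK1 : 1 ≤ K)
    (hK : (K : ℝ) * |(d : ℝ)| ≤ z) {c₁ : ℝ} {A : ℝ}
    (hcl : ∀ j : ℕ, (j : ℝ) < c₁ * K → 4 * A * 3 ^ j < z * 2 ^ K) :
    ct (SZ d A₀ z) A ≤ 2 ^ K * ((fA A₀ z (2 ^ K * (2 * A))).card : ℝ)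
      + (((Wn A).filter (fun n => c₁ * K ≤ (od d K n : ℝ))).card : ℝ) := by
  have hdz : |(d : ℝ)| ≤ z := by
    have : (1 : ℝ) ≤ K := by exact_mod_cast hK1
    nlinarith [abs_nonneg (d : ℝ)]
  unfold ct
  set F := fA A₀ z (2 ^ K * (2 * A)) with hF
  have hsub : (Wn A).filter (fun n => n ∈ SZ d A₀ z)
      ⊆ ((range K).biUnion (fun k => (Wn A).filter (fun n => (Tz d)^[k] n ∈ F)))
        ∪ (Wn A).filter (fun n => c₁ * K ≤ (od d K n : ℝ)) := by
    intro x hx
    rw [mem_filter] at hx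
    obtain ⟨hxW, k, hk1, hk2, _⟩ := hx
    have hxW' := hxW
    rw [mem_Wn] at hxW'
    have hzx : z ≤ x := hk2 0 (Nat.zero_le _)
    have hx0 : 0 < x := by
      have : (0 : ℝ) < x := lt_of_lt_of_le hz hzx
      exact_mod_cast this
    rw [mem_union, mem_biUnion, mem_filter]
    by_cases hkK : k < K
    · left
      refine ⟨k, mem_range.2 hkK, ?_⟩
      rw [mem_filter, hF, mem_fA]
      refine ⟨hxW, ⟨hk2 k le_rfl, ?_⟩, hk1⟩
      have h1 := crude hd hdz k (fun i hi => hk2 i hi.le)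
      have h2 : (2 : ℝ) ^ k ≤ 2 ^ K := pow_le_pow_right₀ (by norm_num) hkK.le
      calc (((Tz d)^[k] x : ℤ) : ℝ) ≤ 2 ^ k * x := h1
        _ ≤ 2 ^ K * (2 * A) := mul_le_mul h2 hxW'.2.le (by linarith) (by positivity)
    · right
      push Not at hkK
      refine ⟨hxW, ?_⟩
      by_contra hcon
      push Not at hcon
      have h1 := growth_two hd hz hK hx0 (fun i hi => hk2 i (by omega))
      have h2 := hcl _ hcon
      have h3 := hk2 K hkK
      have h4 : z * 2 ^ K ≤ 2 * (3 ^ od d K x * x) :=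
        (mul_le_mul_of_nonneg_right h3 (by positivity)).trans h1
      have h5 : 2 * ((3 : ℝ) ^ od d K x * x) ≤ 4 * A * 3 ^ od d K x := by
        have : (0 : ℝ) < 3 ^ od d K x := by positivity
        nlinarith [hxW'.2]
      linarith
  have h1 := card_le_card hsub
  have h2 := card_union_le ((range K).biUnion (fun k => (Wn A).filter (fun n => (Tz d)^[k] n ∈ F)))
    ((Wn A).filter (fun n => c₁ * K ≤ (od d K n : ℝ)))
  have h3 : ((range K).biUnion (fun k => (Wn A).filter (fun n => (Tz d)^[k] n ∈ F))).card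
      ≤ 2 ^ K * F.card := by
    calc _ ≤ ∑ k ∈ range K, ((Wn A).filter (fun n => (Tz d)^[k] n ∈ F)).card := card_biUnion_le
      _ ≤ ∑ k ∈ range K, 2 ^ k * F.card := sum_le_sum fun k _ => pre_card hd _ k F
      _ = (∑ k ∈ range K, 2 ^ k) * F.card := by rw [sum_mul]
      _ ≤ 2 ^ K * F.card := by
          apply Nat.mul_le_mul_right
          have := Nat.geomSum_lt (m := 2) (n := K) (s := range K) (by norm_num) (fun k hk => mem_range.1 hk)
          exact this.le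
  have h4 : ((Wn A).filter (fun n => n ∈ SZ d A₀ z)).card
      ≤ 2 ^ K * F.card + ((Wn A).filter (fun n => c₁ * K ≤ (od d K n : ℝ))).card := by omega
  exact_mod_cast h4

end Pool.Agent.R344.TH
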