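import Pool.Agent.R344.TH.A
import Pool.Agent.H499R2.NDG1
import Pool.Agent.H499R2.NDIter

/-! Thin sets, part B: the one-stage inequality for sets that are forward invariant above a level. -/

set_option autoImplicit false

namespace Pool.Agent.R344.TH

open Finset
open Pool.Agent.H320R2.PD Pool.Agent.H499R2.ND
open Pool.Agent.H499R2.CO (Tz)

/-- forward invariance above the level `Z` -/
def FwdA (d : ℤ) (Z : ℝ) (S : Set ℤ) : Prop :=
  ∀ (M x : ℤ) (e : ℕ), 1 ≤ e → Odd M → Odd x → Z ≤ (M : ℝ) → Z ≤ (x : ℝ) → M ∈ S →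
    3 * M + d = 2 ^ e * x → x ∈ S

theorem path_memA {d : ℤ} (hd : Odd d) {Z : ℝ} (hZ : |(d : ℝ)| ≤ Z) {S : Set ℤ} (hS : FwdA d Z S)
    (w : List ℕ) : (∀ a ∈ w, 1 ≤ a) → ∀ M x : ℤ, Odd M → Odd x → 2 ^ w.sum * Z ≤ (M : ℝ) →
      M ∈ S → Vw d w M x → x ∈ S := by
  induction w using List.reverseRecOn with
  | nil =>
    intro _ M x _ _ _ hMS h
    unfold Vw at h; simp [Wo] at h; rwa [← h]
  | append_singleton u e ih =>
    intro hw M x hM hx hMZ hMS h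
    have hu : ∀ a ∈ u, 1 ≤ a := fun a ha => hw a (by simp [ha])
    obtain ⟨M₁, hM₁, h1, h2⟩ := Vw_snoc hd hu hx h
    have hZ0 : 0 ≤ Z := (abs_nonneg _).trans hZ
    have h1R : 3 * (M : ℝ) + d = 2 ^ e * M₁ := by exact_mod_cast h1
    rw [List.sum_append, List.sum_singleton, pow_add] at hMZ
    have hge1 : (1 : ℝ) ≤ 2 ^ u.sum := one_le_pow₀ (by norm_num)
    have hge2 : (1 : ℝ) ≤ 2 ^ e := one_le_pow₀ (by norm_num)
    have hMge : Z ≤ (M : ℝ) := by
      refine le_trans ?_ hMZ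
      calc Z = 1 * Z := (one_mul _).symm
        _ ≤ 2 ^ u.sum * 2 ^ e * Z :=
            mul_le_mul_of_nonneg_right (one_le_mul_of_one_le_of_one_le hge1 hge2) hZ0
    have hM₁Z : 2 ^ u.sum * Z ≤ (M₁ : ℝ) := by
      have h3 : (M : ℝ) ≤ 2 ^ e * M₁ := by
        rw [← h1R]
        have := neg_abs_le (d : ℝ)
        linarith
      have h4 : 2 ^ e * (2 ^ u.sum * Z) ≤ 2 ^ e * M₁ := by
        refine le_trans (le_of_eq ?_) (hMZ.trans h3); ring
      exact le_of_mul_le_mul_left h4 (by positivity)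
    have hM₁ge : Z ≤ (M₁ : ℝ) := by
      refine le_trans ?_ hM₁Z
      exact le_mul_of_one_le_left hZ0 hge1
    exact ih hu M₁ x hM₁ hx hM₁Z (hS M M₁ e (hw e (by simp)) hM hM₁ hMge hM₁ge hMS h1) h2

/-- the iterates of the shortcut map during one accelerated step -/
theorem iter_syr {d : ℤ} (hd : d % 2 = 1) {M x : ℤ} (hM : Odd M) {e : ℕ} (h : 3 * M + d = 2 ^ e * x) :
    ∀ i : ℕ, i + 1 ≤ e → (Tz d)^[i + 1] M = 2 ^ (e - (i + 1)) * x
  | 0, h1 => by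
    have h2 := Tz_odd (d := d) hd (y := M) (by have := Int.odd_iff.1 hM; omega)
    obtain ⟨f, rfl⟩ : ∃ f, e = f + 1 := ⟨e - 1, by omega⟩
    rw [pow_succ] at h
    simp only [Function.iterate_one, zero_add, Nat.add_sub_cancel]
    linarith
  | i + 1, h1 => by
    have ih := iter_syr hd hM h i (by omega)
    rw [Function.iterate_succ_apply', ih]
    obtain ⟨f, hf⟩ : ∃ f, e - (i + 1) = f + 1 := ⟨e - (i + 1) - 1, by omega⟩
    have hf' : e - (i + 1 + 1) = f := by omega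
    rw [hf, hf', pow_succ]
    have h3 : (2 ^ f * 2 * x) % 2 = 0 := by
      rw [mul_right_comm]; exact Int.mul_emod_left _ _
    have := Tz_even (d := d) h3
    linarith

theorem SZ_fwd {d : ℤ} (hd : d % 2 = 1) {A₀ : Set ℤ} {z : ℝ} (hz : 0 < z) : FwdA d (2 * z) (SZ d A₀ z) := by
  intro M x e he hM hx hMz hxz hMS h
  obtain ⟨k, h1, h2, j₀, h3, h4⟩ := hMS
  have hval : ∀ i ≤ e, 2 * z ≤ (((Tz d)^[i] M : ℤ) : ℝ) := by
    intro i hi
    rcases Nat.eq_zero_or_pos i with rfl | hi0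
    · exact hMz
    · obtain ⟨i', rfl⟩ : ∃ i', i = i' + 1 := ⟨i - 1, by omega⟩
      rw [iter_syr hd hM h i' hi]
      push_cast
      have : (1 : ℝ) ≤ 2 ^ (e - (i' + 1)) := one_le_pow₀ (by norm_num)
      exact hxz.trans (le_mul_of_one_le_left (by linarith) this)
  have hj : e < j₀ := by
    by_contra hcon
    push Not at hcon
    have := hval j₀ hcon
    linarith
  have hx' : (Tz d)^[e] M = x := by
    obtain ⟨i', rfl⟩ : ∃ i', e = i' + 1 := ⟨e - 1, by omega⟩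
    rw [iter_syr hd hM h i' le_rfl]
    simp
  have hsh : ∀ j, (Tz d)^[j] x = (Tz d)^[j + e] M := by
    intro j
    rw [Function.iterate_add_apply, hx']
  refine ⟨k - e, ?_, ?_, j₀ - e, by omega, ?_⟩
  · rw [hsh, Nat.sub_add_cancel (by omega)]; exact h1
  · intro j hj'
    rw [hsh]; exact h2 _ (by omega)
  · rw [hsh, Nat.sub_add_cancel (by omega)]; exact h4

/-- one stage -/
theorem stageA {d : ℤ} (hd : Odd d) (hd3 : IsCoprime d 3) {S : Set ℤ} {Z : ℝ} (hZ : |(d : ℝ)| ≤ Z)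
    (hS : FwdA d Z S) {A : ℝ} (hA : 0 < A) {k m m' : ℕ} (hk : 1 ≤ k) (hm' : m' ≤ k)
    (hAZ : 2 ^ (41 * k / 20) * Z ≤ A) {ρ : ℝ} (hρ : 0 ≤ ρ)
    (h : ∀ T : ℕ, 39 * k ≤ 20 * T → 20 * T ≤ 41 * k → PB S (A * 3 ^ k / 2 ^ T) m' ρ) :
    PB S A m (ρ + Err d A k m m') := by
  intro u v hu
  obtain ⟨c, hc⟩ := cls_unit S A (2 * A) m hu v
  rw [hc]
  have hZ0 : 0 ≤ Z := (abs_nonneg _).trans hZ
  have hTm : 41 * k / 20 ≤ k * (3 * k) := by nlinarith [Nat.div_mul_le_self (41 * k) 20]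
  have h1 := starG hd hd3 (S := S) (fun _ => S) hA.le (3 * k) k m m' ((39 * k + 19) / 20) (41 * k / 20)
    (by
      intro w hw M x hM hx hAM _ hMS hV
      unfold GW at hw
      rw [mem_filter] at hw
      apply path_memA hd hZ hS w (FW_props hw.1).2 M x hM hx _ hMS hV
      refine le_trans ?_ hAM
      refine le_trans ?_ hAZ
      apply mul_le_mul_of_nonneg_right _ hZ0
      exact pow_le_pow_right₀ (by norm_num) hw.2.2) hk hm' hTm c
  set G := GW (3 * k) k ((39 * k + 19) / 20) (41 * k / 20) with hG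
  have h2 : ∑ w ∈ G, ((cls S (A * 3 ^ k / 2 ^ w.sum) (2 * (A * 3 ^ k / 2 ^ w.sum)) m'
            (2 ^ w.sum) (d * Wo w)).card : ℝ) ≤ ∑ w ∈ G, ρ * (A * 3 ^ k / (2 * 3 ^ m')) * wwt w := by
    apply sum_le_sum
    intro w hw
    rw [hG] at hw; unfold GW at hw; rw [mem_filter] at hw
    have h3 := h w.sum (by omega) (by omega) (2 ^ w.sum) (d * Wo w) (cop_two_pow _)
    refine h3.trans (le_of_eq ?_)
    unfold wwt
    rw [one_div, inv_pow]
    field_simp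
  have hmass1 : ∑ w ∈ G, wwt w ≤ 1 := by
    refine le_trans ?_ (sum_wwt_le (3 * k) k)
    rw [hG]; unfold GW
    apply sum_le_sum_of_subset_of_nonneg (filter_subset _ _)
    intro w _ _; unfold wwt; positivity
  rw [← mul_sum] at h2
  have h4 : (∑ w ∈ G, ((cls S (A * 3 ^ k / 2 ^ w.sum) (2 * (A * 3 ^ k / 2 ^ w.sum)) m'
            (2 ^ w.sum) (d * Wo w)).card : ℝ)) / 3 ^ (k + m - m') ≤ ρ * (A / (2 * 3 ^ m)) := by
    rw [div_le_iff₀ (by positivity)]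
    refine h2.trans ?_
    have h5 : ρ * (A * 3 ^ k / (2 * 3 ^ m')) * ∑ w ∈ G, wwt w ≤ ρ * (A * 3 ^ k / (2 * 3 ^ m')) * 1 :=
      mul_le_mul_of_nonneg_left hmass1 (by positivity)
    refine h5.trans (le_of_eq ?_)
    have h6 : (3 : ℝ) ^ (k + m - m') * 3 ^ m' = 3 ^ k * 3 ^ m := by
      rw [← pow_add, ← pow_add]; congr 1; omega
    have h7 : (3 : ℝ) ^ k = 3 ^ (k + m - m') * 3 ^ m' / 3 ^ m := by
      rw [h6]; field_simp
    rw [h7]
    field_simp
  have hfac : A / (2 * 3 ^ m) * (2 * 3 ^ m / A) = 1 := by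
    field_simp
  have hEq : (ρ + Err d A k m m') * (A / (2 * 3 ^ m)) = ρ * (A / (2 * 3 ^ m))
      + (A / (2 * 3 ^ m) + 2 ^ (41 * k / 20))
          * (∑ T ∈ range (k * (3 * k) + 1), dev (FWT (3 * k) k T) wwt (fun w => (Wo w : ℤ)) (k + m) m')
      + A / (2 * 3 ^ m) * (1 - ∑ w ∈ G, wwt w) + 1 + (|(d : ℝ)| + 2) * 2 ^ (41 * k / 20) := by
    unfold Err
    rw [← hG]
    set δ := ∑ T ∈ range (k * (3 * k) + 1), dev (FWT (3 * k) k T) wwt (fun w => (Wo w : ℤ)) (k + m) m'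
    set X := (2 : ℝ) ^ (41 * k / 20)
    set Y := A / (2 * 3 ^ m) with hY
    set Z' := 2 * 3 ^ m / A with hZ'
    set μ := ∑ w ∈ G, wwt w
    have : (ρ + ((1 + X * Z') * δ + (1 - μ) + (1 + (|(d : ℝ)| + 2) * X) * Z')) * Y
        = ρ * Y + (Y + X * (Y * Z')) * δ + Y * (1 - μ) + (1 + (|(d : ℝ)| + 2) * X) * (Y * Z') := by ring
    rw [this, hfac]
    ring
  rw [hEq]
  linarith

end Pool.Agent.R344.TH
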