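import Pool.Agent.R344.TH.B

/-! Thin sets, part C: the error of one stage with short words. -/

set_option autoImplicit false

namespace Pool.Agent.R344.TH

open Finset
open Pool.Agent.H320R2.PD Pool.Agent.H499R2.ND
open Pool.Agent.H499R2.CO (Tz)

/-- error bound with short words -/
theorem err_bound2 {γ : ℝ} (hγ0 : 0 < γ) (hγ : γ ≤ 1 / 2) (B : ℕ) (d : ℤ) : ∃ C : ℝ, 0 < C ∧
    ∀ A : ℝ, 0 < A → 1000 ≤ Real.log A → 4 ≤ (Real.log A) ^ (γ / 2) → ∀ k m m' : ℕ,
    (m : ℝ) ≤ (Real.log A) ^ (γ / 2) → k = ⌊(Real.log A) ^ γ⌋₊ →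
    m' = ⌊(0.9 * Real.log A) ^ (γ / 2)⌋₊ →
    Err d A k m m' ≤ C / (Real.log A) ^ B := by
  obtain ⟨N, hN⟩ : ∃ N : ℕ, ((B : ℝ) + 1) / (γ / 2) ≤ N := exists_nat_ge _
  obtain ⟨Cm, hCm, hmix⟩ := mix N
  refine ⟨2 * (Cm * (2 * 2 ^ N)) + 4 * (N.factorial * 12800 ^ N)
    + (|(d : ℝ)| + 3) * 2 * (B.factorial * 5 ^ B), by positivity, ?_⟩
  intro A hA ht hr4 k m m' hm hk hm'
  set t := Real.log A with htdef
  have htpos : 0 < t := by linarith
  have ht1 : 1 ≤ t := by linarith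
  have hexpA : Real.exp t = A := Real.exp_log hA
  set r := t ^ (γ / 2) with hr
  have hr0 : 0 < r := by linarith
  have hrsq : r ^ 2 = t ^ γ := by
    rw [hr, ← Real.rpow_natCast, ← Real.rpow_mul htpos.le]; congr 1; push_cast; ring
  have hsqrt : t ^ γ ≤ Real.sqrt t := by
    rw [Real.sqrt_eq_rpow]
    exact Real.rpow_le_rpow_of_exponent_le ht1 hγ
  have hsq31 : Real.sqrt t ≤ t / 31 := by
    rw [Real.sqrt_le_left (by positivity)]
    nlinarith
  have hr2t : r ^ 2 ≤ t / 31 := by rw [hrsq]; exact hsqrt.trans hsq31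
  have hkr1 : (k : ℝ) ≤ r ^ 2 := by rw [hk, hrsq]; exact Nat.floor_le (by positivity)
  have hkr2 : r ^ 2 - 1 ≤ k := by rw [hk, hrsq]; linarith [Nat.lt_floor_add_one (t ^ γ)]
  have hk1 : (k : ℝ) ≤ t / 2 := by linarith
  have hkhalf : r ^ 2 / 2 ≤ k := by nlinarith
  have hkpos : (1 : ℝ) ≤ k := by nlinarith
  have hk1N : 1 ≤ k := by exact_mod_cast hkpos
  have hm2 : (m : ℝ) ^ 2 ≤ t := by
    have : (m : ℝ) ^ 2 ≤ r ^ 2 := pow_le_pow_left₀ (Nat.cast_nonneg _) hm 2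
    linarith
  have hs8 : 0.9 * r ≤ (0.9 * t) ^ (γ / 2) := by
    rw [Real.mul_rpow (by norm_num) htpos.le]
    apply mul_le_mul_of_nonneg_right _ hr0.le
    calc (0.9 : ℝ) = 0.9 ^ (1 : ℝ) := (Real.rpow_one _).symm
      _ ≤ 0.9 ^ (γ / 2) := Real.rpow_le_rpow_of_exponent_ge (by norm_num) (by norm_num) (by linarith)
  have hs8' : (0.9 * t) ^ (γ / 2) ≤ r := Real.rpow_le_rpow (by positivity) (by linarith) (by positivity)
  have hm'1 : r / 2 ≤ m' := by
    rw [hm']; linarith [Nat.lt_floor_add_one ((0.9 * t) ^ (γ / 2))]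
  have hm'2 : (m' : ℝ) ≤ r := by
    rw [hm']; exact (Nat.floor_le (by positivity)).trans hs8'
  have hm'pos : 1 ≤ m' := by
    have : (1 : ℝ) ≤ m' := by linarith
    exact_mod_cast this
  have hm'k : m' ≤ k := by
    have : (m' : ℝ) ≤ k := by nlinarith
    exact_mod_cast this
  -- `r ^ N` is large
  have hrN : t ^ (B + 1) ≤ r ^ N := by
    rw [hr, ← Real.rpow_natCast (t ^ (γ / 2)) N, ← Real.rpow_mul htpos.le, ← Real.rpow_natCast t (B + 1)]
    apply Real.rpow_le_rpow_of_exponent_le ht1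
    rw [div_le_iff₀ (by positivity)] at hN
    push_cast
    linarith
  -- exponentially small quantities
  have hexp5 := exp_neg_le B (by norm_num : (0 : ℝ) < 5) htpos
  have hexpb := exp_neg_le N (by norm_num : (0 : ℝ) < 12800) (by positivity : 0 < r ^ 2)
  have hsmall : (2 : ℝ) ^ (41 * k / 20) * (2 * 3 ^ m / A) ≤ 2 * Real.exp (-(t / 5)) := by
    have h1 := pow_tm_le htpos.le hk1
    have h2 := pow_m_le ht hm2
    have h3 : (2 : ℝ) ^ (41 * k / 20) * (2 * 3 ^ m / A)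
        ≤ Real.exp (0.7106 * t) * (2 * Real.exp (0.05 * t) / Real.exp t) := by
      rw [← hexpA]
      apply mul_le_mul h1 _ (by positivity) (Real.exp_pos _).le
      apply div_le_div_of_nonneg_right _ (Real.exp_pos _).le
      linarith
    have h4 : Real.exp (0.7106 * t) * (2 * Real.exp (0.05 * t) / Real.exp t)
        = 2 * Real.exp (0.7106 * t + 0.05 * t - t) := by
      rw [Real.exp_sub, Real.exp_add]; ring
    rw [h4] at h3
    refine h3.trans ?_
    apply mul_le_mul_of_nonneg_left _ (by norm_num)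
    apply Real.exp_le_exp.2
    linarith
  have hexpsmall : Real.exp (-(t / 5)) ≤ 1 / 2 := by
    have h1 := Real.add_one_le_exp (t / 5)
    rw [Real.exp_neg, inv_eq_one_div]
    apply one_div_le_one_div_of_le (by norm_num)
    linarith
  have hsmall1 : (2 : ℝ) ^ (41 * k / 20) * (2 * 3 ^ m / A) ≤ 1 := by linarith
  have h3mA : 0 ≤ (2 * 3 ^ m / A : ℝ) := by positivity
  have hone : (2 * 3 ^ m / A : ℝ) ≤ 2 * Real.exp (-(t / 5)) := by
    have : (1 : ℝ) ≤ 2 ^ (41 * k / 20) := one_le_pow₀ (by norm_num)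
    nlinarith
  -- mixing
  have hδ := hmix k m m' (3 * k) hk1N hm'pos hm'k (le_refl _)
  set δ := ∑ T ∈ range (k * (3 * k) + 1), dev (FWT (3 * k) k T) wwt (fun w => (Wo w : ℤ)) (k + m) m'
    with hδdef
  have hδnn : 0 ≤ δ := sum_nonneg fun _ _ => sum_nonneg fun _ _ => abs_nonneg _
  have hδ2 : δ ≤ (Cm * (2 * 2 ^ N)) / t ^ B := by
    have e1 : ((k : ℝ) + m) ≤ t := by nlinarith
    have e2 : (1 / (m' : ℝ)) ^ N ≤ (2 / r) ^ N := by
      apply pow_le_pow_left₀ (by positivity)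
      rw [div_le_div_iff₀ (by exact_mod_cast hm'pos) hr0]
      linarith
    have e3 : ((m : ℝ) / k) ^ N ≤ (2 / r) ^ N := by
      apply pow_le_pow_left₀ (by positivity)
      rw [div_le_div_iff₀ (by linarith) hr0]
      nlinarith
    calc δ ≤ (k + m) * (Cm * ((1 / (m' : ℝ)) ^ N + ((m : ℝ) / k) ^ N)) := hδ
      _ ≤ t * (Cm * ((2 / r) ^ N + (2 / r) ^ N)) := by
          apply mul_le_mul e1 _ (by positivity) htpos.le
          apply mul_le_mul_of_nonneg_left _ hCm.le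
          linarith
      _ = (Cm * (2 * 2 ^ N)) * (t / r ^ N) := by rw [div_pow]; ring
      _ ≤ (Cm * (2 * 2 ^ N)) * (1 / t ^ B) := by
          apply mul_le_mul_of_nonneg_left _ (by positivity)
          rw [div_le_div_iff₀ (by positivity) (by positivity), one_mul, ← pow_succ']
          exact hrN
      _ = _ := by ring
  -- mass
  have hmass := mass_GW k
  have hmass2 : 3 * Real.exp (-(k / 12800 : ℝ)) ≤ 4 * Real.exp (-(r ^ 2 / 12800)) := by
    have h1 : Real.exp (-(k / 12800 : ℝ)) ≤ Real.exp (1 / 12800) * Real.exp (-(r ^ 2 / 12800)) := by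
      rw [← Real.exp_add]
      apply Real.exp_le_exp.2
      linarith
    have h2 : Real.exp (1 / 12800) ≤ 4 / 3 := by
      have := Real.exp_bound_div_one_sub_of_interval (x := 1 / 12800) (by norm_num) (by norm_num)
      refine this.trans (by norm_num)
    have h3 := Real.exp_pos (-(r ^ 2 / 12800))
    nlinarith
  have hmass3 : Real.exp (-(r ^ 2 / 12800)) ≤ (N.factorial * 12800 ^ N) / t ^ B := by
    refine hexpb.trans ?_
    apply div_le_div_of_nonneg_left (by positivity) (by positivity)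
    have h1 : t ^ B ≤ t ^ (B + 1) := pow_le_pow_right₀ ht1 (by omega)
    have h2 : r ≤ r ^ 2 := by nlinarith
    exact (h1.trans hrN).trans (pow_le_pow_left₀ hr0.le h2 N)
  unfold Err
  rw [← hδdef]
  have hd0 : 0 ≤ |(d : ℝ)| := abs_nonneg _
  have f1 : (1 + 2 ^ (41 * k / 20) * (2 * 3 ^ m / A)) * δ ≤ 2 * δ :=
    mul_le_mul_of_nonneg_right (by linarith) hδnn
  have f2 : (1 + (|(d : ℝ)| + 2) * 2 ^ (41 * k / 20)) * (2 * 3 ^ m / A)
      ≤ (|(d : ℝ)| + 3) * (2 * Real.exp (-(t / 5))) := by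
    calc (1 + (|(d : ℝ)| + 2) * 2 ^ (41 * k / 20)) * (2 * 3 ^ m / A)
        = (2 * 3 ^ m / A) + (|(d : ℝ)| + 2) * (2 ^ (41 * k / 20) * (2 * 3 ^ m / A)) := by ring
      _ ≤ 2 * Real.exp (-(t / 5)) + (|(d : ℝ)| + 2) * (2 * Real.exp (-(t / 5))) := by
          have := mul_le_mul_of_nonneg_left hsmall (by linarith : 0 ≤ |(d : ℝ)| + 2)
          linarith
      _ = _ := by ring
  have f3 : (|(d : ℝ)| + 3) * (2 * Real.exp (-(t / 5)))
      ≤ (|(d : ℝ)| + 3) * (2 * ((B.factorial * 5 ^ B) / t ^ B)) := by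
    apply mul_le_mul_of_nonneg_left _ (by linarith)
    linarith
  have f4 : 4 * Real.exp (-(r ^ 2 / 12800)) ≤ 4 * ((N.factorial * 12800 ^ N) / t ^ B) := by linarith
  calc (1 + 2 ^ (41 * k / 20) * (2 * 3 ^ m / A)) * δ
      + (1 - ∑ w ∈ GW (3 * k) k ((39 * k + 19) / 20) (41 * k / 20), wwt w)
      + (1 + (|(d : ℝ)| + 2) * 2 ^ (41 * k / 20)) * (2 * 3 ^ m / A)
      ≤ 2 * ((Cm * (2 * 2 ^ N)) / t ^ B)
        + 4 * ((N.factorial * 12800 ^ N) / t ^ B)
        + (|(d : ℝ)| + 3) * (2 * ((B.factorial * 5 ^ B) / t ^ B)) := by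
        linarith
    _ = _ := by ring

end Pool.Agent.R344.TH
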