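import Pool.Agent.R344.TH.C

/-! Thin sets, part D: the lowest scales. -/

set_option autoImplicit false

namespace Pool.Agent.R344.TH

open Finset
open Pool.Agent.H320R2.PD Pool.Agent.H499R2.ND
open Pool.Agent.H499R2.CO (Tz)
open Pool.Agent.R344.SP

theorem cls_le_ct (S : Set ℤ) (A : ℝ) (m : ℕ) (u v : ℤ) : ((cls S A (2 * A) m u v).card : ℝ) ≤ ct S A := by
  classical
  unfold ct
  have : (cls S A (2 * A) m u v).card ≤ ((Wn A).filter (fun n => n ∈ S)).card := by
    apply card_le_card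
    intro x hx
    rw [mem_cls] at hx
    rw [mem_filter, mem_Wn]
    exact ⟨hx.1, hx.2.2.1⟩
  exact_mod_cast this

/-- the lowest scales -/
theorem base_PB {d : ℤ} (hd : d % 2 = 1) {γ : ℝ} (hγ0 : 0 < γ) (hγ : γ ≤ 1 / 2) (B : ℕ) :
    ∃ l₀ : ℝ, 0 < l₀ ∧ ∀ z : ℝ, 0 < z → l₀ ≤ Real.log z → ∀ A₀ : Set ℤ,
      (∀ X : ℝ, z ≤ X → ((fA A₀ z X).card : ℝ) ≤ X * Real.exp (-(Real.log X) ^ (2 * γ))) →
      ∀ A : ℝ, z / 2 ≤ A → Real.log A ≤ Real.log z + 3 * (Real.log z) ^ γ → ∀ m : ℕ,
        (m : ℝ) ≤ (Real.log A) ^ (γ / 2) → PB (SZ d A₀ z) A m (1 / (Real.log z) ^ B) := by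
  obtain ⟨ρ, hρ0, hρ1, hod⟩ := od_large hd (c₁ := 0.6) (by norm_num)
  have hlogρ : Real.log ρ < 0 := Real.log_neg hρ0 hρ1
  set c : ℝ := min 1 (-(100 * Real.log ρ)) with hc
  have hc0 : 0 < c := by rw [hc]; exact lt_min one_pos (by linarith)
  have hc1 : c ≤ 1 := min_le_left _ _
  have hc2 : c ≤ -(100 * Real.log ρ) := min_le_right _ _
  have hev1 : ∀ᶠ u : ℝ in Filter.atTop, u ^ ((B : ℝ) / γ) * Real.exp (-c * u) ≤ 1 / 8 :=
    (tendsto_rpow_mul_exp_neg_mul_atTop_nhds_zero _ c hc0).eventually_le_const (by norm_num)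
  have hev2 : ∀ᶠ u : ℝ in Filter.atTop, 300 ≤ u := Filter.eventually_ge_atTop _
  have hev3 : ∀ᶠ u : ℝ in Filter.atTop, (2.4 / (-(100 * Real.log ρ))) ^ 2 ≤ u :=
    Filter.eventually_ge_atTop _
  obtain ⟨u₀, hu₀⟩ := Filter.eventually_atTop.1 (hev1.and (hev2.and hev3))
  refine ⟨max (max 1000000 (2 * |(d : ℝ)|)) ((max u₀ 1) ^ (1 / γ)), by positivity, ?_⟩
  intro z hz hl A₀ hA₀ A hA1 hA2 m hm
  set l := Real.log z with hldef
  have hl1 : 1000000 ≤ l := (le_max_left _ _).trans ((le_max_left _ _).trans hl)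
  have hl2 : 2 * |(d : ℝ)| ≤ l := (le_max_right _ _).trans ((le_max_left _ _).trans hl)
  have hl3 : (max u₀ 1) ^ (1 / γ) ≤ l := (le_max_right _ _).trans hl
  have hl0 : 0 < l := by linarith
  set u := l ^ γ with hu
  have hupos : 0 < u := by rw [hu]; positivity
  have hum : max u₀ 1 ≤ u := by
    have h1 : ((max u₀ 1) ^ (1 / γ)) ^ γ ≤ l ^ γ := Real.rpow_le_rpow (by positivity) hl3 hγ0.le
    rwa [← Real.rpow_mul (by positivity), one_div, inv_mul_cancel₀ hγ0.ne', Real.rpow_one] at h1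
  obtain ⟨h1, h2, h3⟩ := hu₀ u ((le_max_left _ _).trans hum)
  have hexpz : Real.exp l = z := Real.exp_log hz
  have hApos : 0 < A := by linarith
  have hexpA : Real.exp (Real.log A) = A := Real.exp_log hApos
  have hln2a := Real.log_two_gt_d9
  have hln2b := Real.log_two_lt_d9
  have hln3 := log3_le
  -- `u ≤ √l`
  have husq : u ≤ Real.sqrt l := by
    rw [Real.sqrt_eq_rpow]; exact Real.rpow_le_rpow_of_exponent_le (by linarith) hγ
  have hsl : Real.sqrt l ≤ l / 1000 := by
    rw [Real.sqrt_le_left (by positivity)]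
    nlinarith
  have hul : u ≤ l / 1000 := husq.trans hsl
  -- the parameter `K`
  obtain ⟨K, hK⟩ : ∃ K : ℕ, K = ⌈200 * u⌉₊ := ⟨_, rfl⟩
  have hK1 : 200 * u ≤ K := by rw [hK]; exact Nat.le_ceil _
  have hK2 : (K : ℝ) ≤ 200 * u + 1 := by rw [hK]; exact (Nat.ceil_lt_add_one (by positivity)).le
  have hK1N : 1 ≤ K := by
    have : (1 : ℝ) ≤ K := by linarith
    exact_mod_cast this
  have h2K : (2 : ℝ) ^ K = Real.exp (K * Real.log 2) := by
    rw [Real.exp_nat_mul, Real.exp_log (by norm_num)]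
  have hKd : (K : ℝ) * |(d : ℝ)| ≤ z := by
    have e1 : (K : ℝ) ≤ l := by linarith
    have e2 : l ^ 2 / 2 ≤ z := by
      have := Real.pow_div_factorial_le_exp l hl0.le 2
      rw [hexpz] at this
      simpa using this
    have e3 : (K : ℝ) * |(d : ℝ)| ≤ l * (l / 2) :=
      mul_le_mul e1 (by linarith) (abs_nonneg _) hl0.le
    linarith
  have hAlog : l - Real.log 2 ≤ Real.log A := by
    rw [hldef, ← Real.log_div hz.ne' (by norm_num)]
    exact Real.log_le_log (by positivity) hA1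
  have h2KA : (2 : ℝ) ^ K ≤ A := by
    rw [h2K, ← hexpA]
    apply Real.exp_le_exp.2
    have : (K : ℝ) * Real.log 2 ≤ (200 * u + 1) * 0.7 :=
      mul_le_mul hK2 (by linarith) (by linarith) (by positivity)
    linarith
  have hAz : A ≤ z * Real.exp (3 * u) := by
    rw [← hexpA, ← hexpz, ← Real.exp_add]
    exact Real.exp_le_exp.2 hA2
  have hbc := base_count hd A₀ hz hK1N hKd (c₁ := 0.6) (A := A) (by
    intro j hj
    have e1 : (3 : ℝ) ^ j ≤ Real.exp (0.96 * (K * Real.log 2)) := by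
      have : (3 : ℝ) ^ j = Real.exp (j * Real.log 3) := by
        rw [Real.exp_nat_mul, Real.exp_log (by norm_num)]
      rw [this]
      apply Real.exp_le_exp.2
      calc (j : ℝ) * Real.log 3 ≤ (0.6 * K) * (8 / 5 * Real.log 2) := by
            apply mul_le_mul hj.le hln3 (Real.log_nonneg (by norm_num)) (by positivity)
        _ = _ := by ring
    have e2 : 4 * A * 3 ^ j ≤ Real.exp (2 * Real.log 2) * (z * Real.exp (3 * u))
        * Real.exp (0.96 * (K * Real.log 2)) := by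
      have : Real.exp (2 * Real.log 2) = 4 := by
        rw [show (2 : ℝ) * Real.log 2 = ((2 : ℕ) : ℝ) * Real.log 2 by norm_num, Real.exp_nat_mul,
          Real.exp_log (by norm_num)]
        norm_num
      rw [this]
      apply mul_le_mul _ e1 (by positivity) (by positivity)
      linarith
    refine e2.trans_lt ?_
    have e3 : Real.exp (2 * Real.log 2) * (z * Real.exp (3 * u)) * Real.exp (0.96 * (K * Real.log 2))
        = z * Real.exp (2 * Real.log 2 + 3 * u + 0.96 * (K * Real.log 2)) := by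
      rw [Real.exp_add, Real.exp_add]; ring
    rw [e3, h2K]
    apply mul_lt_mul_of_pos_left _ hz
    apply Real.exp_lt_exp.2
    have e4 : 200 * u * 0.69 ≤ K * Real.log 2 := mul_le_mul hK1 (by linarith) (by norm_num) (by positivity)
    linarith)
  -- the two parts
  have h3m : (3 : ℝ) ^ m ≤ Real.exp (2.4 * Real.sqrt u) := by
    have e0 : (3 : ℝ) ^ m = Real.exp (m * Real.log 3) := by
      rw [Real.exp_nat_mul, Real.exp_log (by norm_num)]
    rw [e0]
    apply Real.exp_le_exp.2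
    have e1 : (m : ℝ) ≤ 2 * Real.sqrt u := by
      refine hm.trans ?_
      have e2 : Real.log A ≤ 4 * l := by linarith
      have e3 : 0 ≤ Real.log A := by linarith
      calc (Real.log A) ^ (γ / 2) ≤ (4 * l) ^ (γ / 2) := Real.rpow_le_rpow e3 e2 (by positivity)
        _ = 4 ^ (γ / 2) * l ^ (γ / 2) := Real.mul_rpow (by norm_num) hl0.le
        _ ≤ 2 * Real.sqrt u := by
            apply mul_le_mul _ _ (by positivity) (by norm_num)
            · calc (4 : ℝ) ^ (γ / 2) ≤ 4 ^ (1 / 2 : ℝ) :=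
                    Real.rpow_le_rpow_of_exponent_le (by norm_num) (by linarith)
                _ = 2 := by
                    rw [← Real.sqrt_eq_rpow, show (4 : ℝ) = 2 ^ 2 by norm_num]
                    exact Real.sqrt_sq (by norm_num)
            · rw [hu, Real.sqrt_eq_rpow, ← Real.rpow_mul hl0.le]
              exact le_of_eq (by congr 1; ring)
    calc (m : ℝ) * Real.log 3 ≤ (2 * Real.sqrt u) * 1.2 :=
          mul_le_mul e1 (by linarith) (Real.log_nonneg (by norm_num)) (by positivity)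
      _ = _ := by ring
  have hsu : Real.sqrt u ≤ u := by
    rw [Real.sqrt_le_left hupos.le]; nlinarith
  have h24 : 2.4 * Real.sqrt u ≤ -(100 * Real.log ρ) * u := by
    set c' := -(100 * Real.log ρ) with hc'
    have hc'0 : 0 < c' := by linarith
    have e1 : 2.4 / c' ≤ Real.sqrt u := Real.le_sqrt_of_sq_le h3
    rw [div_le_iff₀ hc'0] at e1
    have e2 : Real.sqrt u * Real.sqrt u = u := Real.mul_self_sqrt hupos.le
    nlinarith [Real.sqrt_nonneg u]
  set E := Real.exp (-c * u) with hE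
  have hE0 : 0 < E := Real.exp_pos _
  have hP : l ^ B = u ^ ((B : ℝ) / γ) := by
    rw [hu, ← Real.rpow_mul hl0.le, mul_div_cancel₀ _ hγ0.ne', Real.rpow_natCast]
  have hPE : l ^ B * E ≤ 1 / 8 := by rw [hP]; exact h1
  have hE1 : (3 : ℝ) ^ m * (2 ^ K * 2 ^ K * Real.exp (-u ^ 2)) ≤ E := by
    rw [h2K, ← Real.exp_add, ← Real.exp_add]
    calc (3 : ℝ) ^ m * Real.exp (↑K * Real.log 2 + ↑K * Real.log 2 + -u ^ 2)
        ≤ Real.exp (2.4 * Real.sqrt u) * Real.exp (↑K * Real.log 2 + ↑K * Real.log 2 + -u ^ 2) :=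
          mul_le_mul_of_nonneg_right h3m (Real.exp_pos _).le
      _ ≤ E := by
          rw [← Real.exp_add, hE]
          apply Real.exp_le_exp.2
          have e1 : (K : ℝ) * Real.log 2 ≤ (200 * u + 1) * 0.7 :=
            mul_le_mul hK2 (by linarith) (by linarith) (by positivity)
          have e2 : c * u ≤ 1 * u := mul_le_mul_of_nonneg_right hc1 hupos.le
          nlinarith
  have hE2 : (3 : ℝ) ^ m * ρ ^ K ≤ E := by
    have e0 : ρ ^ K = Real.exp (K * Real.log ρ) := by
      rw [Real.exp_nat_mul, Real.exp_log hρ0]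
    rw [e0]
    calc (3 : ℝ) ^ m * Real.exp (K * Real.log ρ)
        ≤ Real.exp (2.4 * Real.sqrt u) * Real.exp (K * Real.log ρ) :=
          mul_le_mul_of_nonneg_right h3m (Real.exp_pos _).le
      _ ≤ E := by
          rw [← Real.exp_add, hE]
          apply Real.exp_le_exp.2
          have e1 : (K : ℝ) * Real.log ρ ≤ 200 * u * Real.log ρ :=
            mul_le_mul_of_nonpos_right hK1 hlogρ.le
          have e2 : c * u ≤ -(100 * Real.log ρ) * u := mul_le_mul_of_nonneg_right hc2 hupos.le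
          linarith
  intro v w _
  refine (cls_le_ct _ _ _ _ _).trans (hbc.trans ?_)
  have hodA := hod K A hApos.le
  have hfA := hA₀ (2 ^ K * (2 * A)) (by
    have : (1 : ℝ) ≤ 2 ^ K := one_le_pow₀ (by norm_num)
    nlinarith)
  have hXlog : Real.exp (-(Real.log (2 ^ K * (2 * A))) ^ (2 * γ)) ≤ Real.exp (-u ^ 2) := by
    apply Real.exp_le_exp.2
    apply neg_le_neg
    have e1 : l ≤ Real.log (2 ^ K * (2 * A)) := by
      rw [hldef]
      apply Real.log_le_log hz
      have : (1 : ℝ) ≤ 2 ^ K := one_le_pow₀ (by norm_num)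
      nlinarith
    calc u ^ 2 = l ^ (2 * γ) := by
          rw [hu, ← Real.rpow_natCast, ← Real.rpow_mul hl0.le]; congr 1; push_cast; ring
      _ ≤ _ := Real.rpow_le_rpow hl0.le e1 (by positivity)
  have h3m0 : (0 : ℝ) < 3 ^ m := by positivity
  have hS1 : (2 : ℝ) ^ K * ((fA A₀ z (2 ^ K * (2 * A))).card : ℝ) ≤ 2 * A * (E / 3 ^ m) := by
    calc (2 : ℝ) ^ K * ((fA A₀ z (2 ^ K * (2 * A))).card : ℝ)
        ≤ 2 ^ K * (2 ^ K * (2 * A) * Real.exp (-u ^ 2)) := by
          apply mul_le_mul_of_nonneg_left _ (by positivity)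
          exact hfA.trans (mul_le_mul_of_nonneg_left hXlog (by positivity))
      _ = 2 * A * (3 ^ m * (2 ^ K * 2 ^ K * Real.exp (-u ^ 2)) / 3 ^ m) := by
          field_simp
      _ ≤ 2 * A * (E / 3 ^ m) := by
          apply mul_le_mul_of_nonneg_left _ (by positivity)
          exact div_le_div_of_nonneg_right hE1 h3m0.le
  have hS2 : (A + 2 ^ K) * ρ ^ K ≤ 2 * A * (E / 3 ^ m) := by
    calc (A + 2 ^ K) * ρ ^ K ≤ (2 * A) * (3 ^ m * ρ ^ K / 3 ^ m) := by
          rw [mul_div_cancel_left₀ _ h3m0.ne']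
          apply mul_le_mul_of_nonneg_right _ (by positivity)
          linarith
      _ ≤ _ := by
          apply mul_le_mul_of_nonneg_left _ (by positivity)
          exact div_le_div_of_nonneg_right hE2 h3m0.le
  have hfin : 2 * A * (E / 3 ^ m) + 2 * A * (E / 3 ^ m) ≤ 1 / l ^ B * (A / (2 * 3 ^ m)) := by
    have e1 : E ≤ 1 / 8 / l ^ B := by
      rw [le_div_iff₀ (by positivity), mul_comm]; exact hPE
    calc 2 * A * (E / 3 ^ m) + 2 * A * (E / 3 ^ m) = 4 * A / 3 ^ m * E := by ring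
      _ ≤ 4 * A / 3 ^ m * (1 / 8 / l ^ B) := mul_le_mul_of_nonneg_left e1 (by positivity)
      _ = _ := by field_simp; norm_num
  linarith

end Pool.Agent.R344.TH
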