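import Pool.Agent.R344.TH.D

/-! Thin sets, part E: all scales. -/

set_option autoImplicit false

namespace Pool.Agent.R344.TH

open Finset
open Pool.Agent.H320R2.PD Pool.Agent.H499R2.ND
open Pool.Agent.H499R2.CO (Tz)
open Pool.Agent.R344.SP

theorem next_scale2 {A : ℝ} (hA : 0 < A) {k T : ℕ} (h1 : 39 * k ≤ 20 * T) (h2 : 20 * T ≤ 41 * k) :
    Real.log A - 0.33 * k ≤ Real.log (A * 3 ^ k / 2 ^ T) ∧
      Real.log (A * 3 ^ k / 2 ^ T) ≤ Real.log A - 0.24 * k := by
  have e : Real.log (A * 3 ^ k / 2 ^ T) = Real.log A + k * Real.log 3 - T * Real.log 2 := by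
    rw [Real.log_div (by positivity) (by positivity), Real.log_mul (by positivity) (by positivity),
      Real.log_pow, Real.log_pow]
  rw [e]
  have h1' : (39 : ℝ) * k ≤ 20 * T := by exact_mod_cast h1
  have h2' : (20 : ℝ) * T ≤ 41 * k := by exact_mod_cast h2
  have hl := Real.log_two_gt_d9
  have hl' := Real.log_two_lt_d9
  have h3a := log3_le
  have h3b := log3_ge
  have hk0 : (0 : ℝ) ≤ k := Nat.cast_nonneg k
  constructor
  · have a1 : (k : ℝ) * (19 / 12 * Real.log 2) ≤ k * Real.log 3 := mul_le_mul_of_nonneg_left h3b hk0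
    have a2 : (T : ℝ) * Real.log 2 ≤ (41 / 20 * k) * Real.log 2 :=
      mul_le_mul_of_nonneg_right (by linarith) (by linarith)
    have a3 : (k : ℝ) * Real.log 2 ≤ k * 0.6931471808 := mul_le_mul_of_nonneg_left hl'.le hk0
    nlinarith
  · have a1 : k * Real.log 3 ≤ (k : ℝ) * (8 / 5 * Real.log 2) := mul_le_mul_of_nonneg_left h3a hk0
    have a2 : (39 / 20 * k) * Real.log 2 ≤ (T : ℝ) * Real.log 2 :=
      mul_le_mul_of_nonneg_right (by linarith) (by linarith)
    have a3 : (k : ℝ) * 0.6931471803 ≤ k * Real.log 2 := mul_le_mul_of_nonneg_left hl.le hk0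
    nlinarith

theorem pow_step (B : ℕ) (hB : 1 ≤ B) {t : ℝ} (ht : 1 < t) :
    1 / t ^ B + 1 / t ^ (B + 1) ≤ 1 / (t - 1) ^ B := by
  have h1 : 0 < t - 1 := by linarith
  have ht0 : 0 < t := by linarith
  have h2 : 1 + 1 / t ≤ (t / (t - 1)) ^ B := by
    have h3 : 1 + 1 / t ≤ t / (t - 1) := by
      rw [le_div_iff₀ h1]
      have : (1 + 1 / t) * (t - 1) = t - 1 / t := by field_simp; ring
      rw [this]
      have : 0 < 1 / t := by positivity
      linarith
    have h4 : 1 ≤ t / (t - 1) := by
      rw [le_div_iff₀ h1]; linarith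
    calc 1 + 1 / t ≤ t / (t - 1) := h3
      _ = (t / (t - 1)) ^ 1 := (pow_one _).symm
      _ ≤ (t / (t - 1)) ^ B := pow_le_pow_right₀ h4 hB
  have h5 : 1 / t ^ B + 1 / t ^ (B + 1) = (1 + 1 / t) / t ^ B := by
    rw [pow_succ]; field_simp
  have h6 : 1 / (t - 1) ^ B = (t / (t - 1)) ^ B / t ^ B := by
    rw [div_pow]; field_simp
  rw [h5, h6]
  exact div_le_div_of_nonneg_right h2 (by positivity)

/-- all scales -/
theorem SZ_PB {d : ℤ} (hd : Odd d) (hd3 : IsCoprime d 3) {γ : ℝ} (hγ0 : 0 < γ) (hγ : γ ≤ 1 / 2)
    (B : ℕ) (hB : 1 ≤ B) :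
    ∃ l₀ K : ℝ, 0 < l₀ ∧ 0 < K ∧ ∀ z : ℝ, 0 < z → l₀ ≤ Real.log z → ∀ A₀ : Set ℤ,
      (∀ X : ℝ, z ≤ X → ((fA A₀ z X).card : ℝ) ≤ X * Real.exp (-(Real.log X) ^ (2 * γ))) →
      ∀ A : ℝ, z / 2 ≤ A → ∀ m : ℕ,
        (m : ℝ) ≤ (Real.log A) ^ (γ / 2) → PB (SZ d A₀ z) A m (K / (Real.log z) ^ B) := by
  have hd2 : d % 2 = 1 := Int.odd_iff.1 hd
  obtain ⟨l₀, hl₀, hbase⟩ := base_PB hd2 hγ0 hγ B
  obtain ⟨C, hC, herr⟩ := err_bound2 hγ0 hγ (B + 1) d
  refine ⟨max (max l₀ 1000) (max ((16 : ℝ) ^ (1 / γ)) |(d : ℝ)|), 1 + 2 * C, by positivity, by positivity, ?_⟩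
  intro z hz hl A₀ hA₀
  set l := Real.log z with hldef
  have hll : l₀ ≤ l := (le_max_left _ _).trans ((le_max_left _ _).trans hl)
  have hl1000 : 1000 ≤ l := (le_max_right _ _).trans ((le_max_left _ _).trans hl)
  have hl16 : (16 : ℝ) ^ (1 / γ) ≤ l := (le_max_left _ _).trans ((le_max_right _ _).trans hl)
  have hld : |(d : ℝ)| ≤ l := (le_max_right _ _).trans ((le_max_right _ _).trans hl)
  have hl0 : 0 < l := by linarith
  have hexpz : Real.exp l = z := Real.exp_log hz
  have hdz : |(d : ℝ)| ≤ z := by
    rw [← hexpz]; linarith [Real.add_one_le_exp l]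
  have h16 : ∀ t : ℝ, l ≤ t → 16 ≤ t ^ γ := by
    intro t ht
    have h1 : ((16 : ℝ) ^ (1 / γ)) ^ γ ≤ t ^ γ :=
      Real.rpow_le_rpow (by positivity) (hl16.trans ht) hγ0.le
    rwa [← Real.rpow_mul (by positivity), one_div, inv_mul_cancel₀ hγ0.ne', Real.rpow_one] at h1
  set S := SZ d A₀ z with hS
  have hfwd : FwdA d (2 * z) S := SZ_fwd hd2 hz
  have hln2a := Real.log_two_gt_d9
  have hln2b := Real.log_two_lt_d9
  have hplB : 0 < l ^ B := by positivity
  have hmono : ∀ s : ℝ, l ≤ s → 1 / s ^ B ≤ 1 / l ^ B := fun s hs =>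
    one_div_le_one_div_of_le hplB (pow_le_pow_left₀ hl0.le hs B)
  have main : ∀ n : ℕ, ∀ A : ℝ, 0 < A → l ≤ Real.log A → Real.log A ≤ l + n → ∀ m : ℕ,
      (m : ℝ) ≤ (Real.log A) ^ (γ / 2) →
        PB S A m (1 / l ^ B + C * (2 * (1 / l ^ B) - 1 / (Real.log A) ^ B)) := by
    intro n
    induction n with
    | zero =>
      intro A hA hlA hAn m hm
      rw [Nat.cast_zero, add_zero] at hAn
      have hAz : z / 2 ≤ A := by
        have : z ≤ A := by
          rw [← hexpz, ← Real.exp_log hA]; exact Real.exp_le_exp.2 hlA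
        linarith
      have h1 := hbase z hz hll A₀ hA₀ A hAz (by
        have : 0 < l ^ γ := by positivity
        linarith) m hm
      intro u v hu
      refine (h1 u v hu).trans ?_
      apply mul_le_mul_of_nonneg_right _ (by positivity)
      have h2 := hmono _ hlA
      have h3 : 0 ≤ C * (2 * (1 / l ^ B) - 1 / Real.log A ^ B) := by
        apply mul_nonneg hC.le
        have : 0 < 1 / l ^ B := by positivity
        linarith
      linarith
    | succ n ih =>
      intro A hA hlA hAn m hm
      set t := Real.log A with htdef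
      have ht0 : 0 < t := by linarith
      have hexpA : Real.exp t = A := Real.exp_log hA
      rcases le_or_gt t (l + 3 * l ^ γ) with hcase | hcase
      · have hAz : z / 2 ≤ A := by
          have : z ≤ A := by
            rw [← hexpz, ← hexpA]; exact Real.exp_le_exp.2 hlA
          linarith
        have h1 := hbase z hz hll A₀ hA₀ A hAz hcase m hm
        intro u v hu
        refine (h1 u v hu).trans ?_
        apply mul_le_mul_of_nonneg_right _ (by positivity)
        have h2 := hmono _ hlA
        have h3 : 0 ≤ C * (2 * (1 / l ^ B) - 1 / t ^ B) := by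
          apply mul_nonneg hC.le
          have : 0 < 1 / l ^ B := by positivity
          linarith
        linarith
      · obtain ⟨k, hk⟩ : ∃ k : ℕ, k = ⌊t ^ γ⌋₊ := ⟨_, rfl⟩
        obtain ⟨m', hm'⟩ : ∃ m' : ℕ, m' = ⌊(0.9 * t) ^ (γ / 2)⌋₊ := ⟨_, rfl⟩
        have ht1000 : 1000 ≤ t := by linarith
        set r := t ^ (γ / 2) with hr
        have hrsq : r ^ 2 = t ^ γ := by
          rw [hr, ← Real.rpow_natCast, ← Real.rpow_mul ht0.le]; congr 1; push_cast; ring
        have hr0 : 0 < r := by positivity
        have ht16 := h16 t hlA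
        have hr4 : 4 ≤ r := by
          by_contra hcon
          push Not at hcon
          nlinarith
        have hsqrt : t ^ γ ≤ Real.sqrt t := by
          rw [Real.sqrt_eq_rpow]
          exact Real.rpow_le_rpow_of_exponent_le (by linarith) hγ
        have hsq31 : Real.sqrt t ≤ t / 31 := by
          rw [Real.sqrt_le_left (by positivity)]
          nlinarith
        have hk1 : (k : ℝ) ≤ t ^ γ := by rw [hk]; exact Nat.floor_le (by positivity)
        have hk2 : t ^ γ - 1 ≤ k := by rw [hk]; linarith [Nat.lt_floor_add_one (t ^ γ)]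
        have hk15 : (15 : ℝ) ≤ k := by linarith
        have hk1N : 1 ≤ k := by
          have : (1 : ℝ) ≤ k := by linarith
          exact_mod_cast this
        have hm'2 : (m' : ℝ) ≤ r := by
          rw [hm']
          refine (Nat.floor_le (by positivity)).trans ?_
          exact Real.rpow_le_rpow (by positivity) (by linarith) (by positivity)
        have hm'k : m' ≤ k := by
          have : (m' : ℝ) ≤ k := by nlinarith
          exact_mod_cast this
        -- the room between `t` and `l`
        have hroom : l + 1.43 * t ^ γ + 0.7 ≤ t := by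
          rcases le_or_gt t (4 * l) with h4 | h4
          · have e1 : t ^ γ ≤ 2 * l ^ γ := by
              calc t ^ γ ≤ (4 * l) ^ γ := Real.rpow_le_rpow ht0.le h4 hγ0.le
                _ = 4 ^ γ * l ^ γ := Real.mul_rpow (by norm_num) hl0.le
                _ ≤ 2 * l ^ γ := by
                    apply mul_le_mul_of_nonneg_right _ (by positivity)
                    calc (4 : ℝ) ^ γ ≤ 4 ^ (1 / 2 : ℝ) :=
                          Real.rpow_le_rpow_of_exponent_le (by norm_num) hγ
                      _ = 2 := by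
                          rw [← Real.sqrt_eq_rpow, show (4 : ℝ) = 2 ^ 2 by norm_num]
                          exact Real.sqrt_sq (by norm_num)
            have e2 := h16 l le_rfl
            linarith
          · linarith
        have hpath : (2 : ℝ) ^ (41 * k / 20) * (2 * z) ≤ A := by
          have e1 : (2 : ℝ) ^ (41 * k / 20) = Real.exp (((41 * k / 20 : ℕ) : ℝ) * Real.log 2) := by
            rw [Real.exp_nat_mul, Real.exp_log (by norm_num)]
          have e2 : 2 * z = Real.exp (Real.log 2 + l) := by
            rw [Real.exp_add, Real.exp_log (by norm_num), hexpz]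
          rw [e1, e2, ← hexpA, ← Real.exp_add]
          apply Real.exp_le_exp.2
          have e3 : 20 * (41 * k / 20) ≤ 41 * k := Nat.mul_div_le _ _
          have e4 : (20 : ℝ) * ((41 * k / 20 : ℕ) : ℝ) ≤ 41 * k := by exact_mod_cast e3
          have e5 : ((41 * k / 20 : ℕ) : ℝ) * Real.log 2 ≤ (41 / 20 * t ^ γ) * 0.6931471808 :=
            mul_le_mul (by linarith) hln2b.le (by linarith) (by positivity)
          have e6 : 0 < t ^ γ := by positivity
          nlinarith
        have hE := herr A hA ht1000 hr4 k m m' hm hk hm'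
        rw [← htdef] at hE
        have ht1l : l ≤ t - 1 := by
          have : 0 < t ^ γ := by positivity
          linarith
        have hρ : 0 ≤ 1 / l ^ B + C * (2 * (1 / l ^ B) - 1 / (t - 1) ^ B) := by
          have e1 := hmono (t - 1) ht1l
          have e2 : 0 < 1 / l ^ B := by positivity
          have e3 : 0 ≤ C * (2 * (1 / l ^ B) - 1 / (t - 1) ^ B) := mul_nonneg hC.le (by linarith)
          linarith
        have hst := stageA hd hd3 (Z := 2 * z) (by linarith) hfwd hA hk1N hm'k (m := m) hpath hρ (by
          intro T hT1 hT2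
          have hn := next_scale2 hA hT1 hT2
          rw [← htdef] at hn
          have hA'pos : 0 < A * 3 ^ k / 2 ^ T := by positivity
          have hge : l ≤ Real.log (A * 3 ^ k / 2 ^ T) := by
            have : 0 < t ^ γ := by positivity
            linarith [hn.1]
          have hih := ih (A * 3 ^ k / 2 ^ T) hA'pos hge (by
              push_cast at hAn
              linarith [hn.2]) m' (by
              rw [hm']
              refine (Nat.floor_le (by positivity)).trans ?_
              apply Real.rpow_le_rpow (by positivity) _ (by positivity)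
              linarith [hn.1])
          intro u v hu
          refine (hih u v hu).trans ?_
          apply mul_le_mul_of_nonneg_right _ (by positivity)
          apply add_le_add_right
          apply mul_le_mul_of_nonneg_left _ hC.le
          have : 1 / (t - 1) ^ B ≤ 1 / Real.log (A * 3 ^ k / 2 ^ T) ^ B :=
            one_div_le_one_div_of_le (pow_pos (by linarith) B)
              (pow_le_pow_left₀ (by linarith) (by linarith [hn.2]) B)
          linarith)
        intro u v hu
        refine (hst u v hu).trans ?_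
        apply mul_le_mul_of_nonneg_right _ (by positivity)
        have e1 := pow_step B hB (t := t) (by linarith)
        have e2 := mul_le_mul_of_nonneg_left e1 hC.le
        have e3 : C / t ^ (B + 1) = C * (1 / t ^ (B + 1)) := by ring
        rw [e3] at hE
        rw [mul_sub, mul_sub]
        linarith
  intro A hAz m hm
  have hA : 0 < A := by linarith
  rcases le_or_gt l (Real.log A) with hc | hc
  · obtain ⟨n, hn⟩ := exists_nat_ge (Real.log A - l)
    have h1 := main n A hA hc (by linarith) m hm
    intro u v hu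
    refine (h1 u v hu).trans ?_
    apply mul_le_mul_of_nonneg_right _ (by positivity)
    have e1 : 0 < 1 / (Real.log A) ^ B := by
      have : 0 < Real.log A := by linarith
      positivity
    have e2 : (1 + 2 * C) / l ^ B = 1 / l ^ B + C * (2 * (1 / l ^ B)) := by ring
    rw [e2]
    have := mul_nonneg hC.le e1.le
    rw [mul_sub]
    linarith
  · have h1 := hbase z hz hll A₀ hA₀ A hAz (by
      have : 0 < l ^ γ := by positivity
      linarith) m hm
    intro u v hu
    refine (h1 u v hu).trans ?_
    apply mul_le_mul_of_nonneg_right _ (by positivity)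
    apply div_le_div_of_nonneg_right _ hplB.le
    linarith

end Pool.Agent.R344.TH
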