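import Pool.Agent.R344.TH.E

/-! Thin sets, part F: the count of all integers. -/

set_option autoImplicit false

namespace Pool.Agent.R344.TH

open Finset
open Pool.Agent.H320R2.PD Pool.Agent.H499R2.ND
open Pool.Agent.H499R2.CO (Tz)
open Pool.Agent.R344.SP

/-- trajectories meeting `A₀` before going below `Y` -/
def HY (d : ℤ) (A₀ : Set ℤ) (Y : ℝ) : Set ℤ :=
  {x : ℤ | ∃ k : ℕ, (Tz d)^[k] x ∈ A₀ ∧ ∀ j ≤ k, Y ≤ (((Tz d)^[j] x : ℤ) : ℝ)}

theorem HY_sub {d : ℤ} {A₀ : Set ℤ} {Y : ℝ} (hY : 0 < Y) {x : ℤ} (h : x ∈ HY d A₀ Y) :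
    ∃ i : ℕ, x ∈ SZ d A₀ (Y * 2 ^ i) := by
  obtain ⟨k, h1, h2⟩ := h
  obtain ⟨j₀, hj₀, hmin⟩ := Finset.exists_min_image (range (k + 1)) (fun j => (Tz d)^[j] x)
    ⟨0, by simp⟩
  rw [mem_range] at hj₀
  have hμ := h2 j₀ (by omega)
  obtain ⟨i, hi1, hi2⟩ := exists_nat_pow_near (x := (((Tz d)^[j₀] x : ℤ) : ℝ) / Y) (y := 2)
    (by rw [le_div_iff₀ hY]; linarith) (by norm_num)
  rw [le_div_iff₀ hY] at hi1
  rw [div_lt_iff₀ hY] at hi2
  refine ⟨i, k, h1, ?_, j₀, by omega, ?_⟩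
  · intro j hj
    have h3 := hmin j (mem_range.2 (by omega))
    have h4 : (((Tz d)^[j₀] x : ℤ) : ℝ) ≤ (((Tz d)^[j] x : ℤ) : ℝ) := by exact_mod_cast h3
    linarith
  · rw [pow_succ] at hi2; linarith

theorem geom_half (J : ℕ) : ∑ j ∈ range J, (1 / 2 : ℝ) ^ j ≤ 2 := by
  have h := Summable.sum_le_tsum (f := fun j : ℕ => (1 / 2 : ℝ) ^ j) (range J)
    (fun j _ => by positivity) summable_geometric_two
  rw [tsum_geometric_two] at h
  exact h

open scoped Classical in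
/-- odd elements up to `X` -/
theorem odd_count {S : Set ℤ} {z ρ X : ℝ} (hρ : 0 ≤ ρ) (hS : ∀ x ∈ S, z ≤ (x : ℝ))
    (hPB : ∀ A : ℝ, z / 2 ≤ A → PB S A 0 ρ) (hX : 0 < X) :
    (((Icc (1 : ℤ) ⌊X⌋).filter (fun x => Odd x ∧ x ∈ S)).card : ℝ) ≤ ρ * X := by
  obtain ⟨J, hJ⟩ : ∃ J : ℕ, X < 2 ^ J := pow_unbounded_of_one_lt X (by norm_num)
  have hsub : (Icc (1 : ℤ) ⌊X⌋).filter (fun x => Odd x ∧ x ∈ S)
      ⊆ (range (J + 1)).biUnion (fun j => cls S (X * (1 / 2) ^ j) (2 * (X * (1 / 2) ^ j)) 0 1 0) := by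
    intro x hx
    rw [mem_filter, Finset.mem_Icc, Int.le_floor] at hx
    obtain ⟨⟨hx1, hx2⟩, hx3, hx4⟩ := hx
    have hx1R : (1 : ℝ) ≤ x := by exact_mod_cast hx1
    have hx0 : (0 : ℝ) < x := by linarith
    obtain ⟨i, hi1, hi2⟩ := exists_nat_pow_near (x := 2 * X / (x : ℝ)) (y := 2)
      (by rw [le_div_iff₀ hx0]; linarith) (by norm_num)
    rw [le_div_iff₀ hx0] at hi1
    rw [div_lt_iff₀ hx0] at hi2
    rw [mem_biUnion]
    -- `2^i x ≤ 2X < 2^(i+1) x`
    have hiJ : i < J + 1 := by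
      by_contra hcon
      push Not at hcon
      have h1 : (2 : ℝ) ^ (J + 1) ≤ 2 ^ i := pow_le_pow_right₀ (by norm_num) hcon
      rw [pow_succ] at h1
      nlinarith
    have h2i : (0 : ℝ) < 2 ^ i := by positivity
    have hhalf : ((1 / 2 : ℝ)) ^ i = 1 / 2 ^ i := by rw [div_pow, one_pow]
    rcases eq_or_lt_of_le hi1 with heq | hlt
    · -- boundary: `2^i x = 2X`: then `i ≥ 1`, use `i - 1`
      rcases Nat.eq_zero_or_pos i with rfl | hi0
      · exfalso
        rw [pow_zero, one_mul] at heq; linarith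
      · refine ⟨i - 1, mem_range.2 (by omega), ?_⟩
        obtain ⟨i', rfl⟩ : ∃ i', i = i' + 1 := ⟨i - 1, by omega⟩
        rw [Nat.add_sub_cancel, mem_cls]
        have h2i' : (0 : ℝ) < 2 ^ i' := by positivity
        have hhalf' : ((1 / 2 : ℝ)) ^ i' = 1 / 2 ^ i' := by rw [div_pow, one_pow]
        rw [pow_succ] at heq
        rw [hhalf']
        refine ⟨⟨?_, ?_⟩, hx3, hx4, by simp⟩
        · rw [mul_one_div, div_le_iff₀ h2i']; linarith
        · rw [mul_one_div, ← mul_div_assoc, lt_div_iff₀ h2i']; nlinarith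
    · refine ⟨i, mem_range.2 hiJ, ?_⟩
      rw [mem_cls, hhalf]
      rw [pow_succ] at hi2
      refine ⟨⟨?_, ?_⟩, hx3, hx4, by simp⟩
      · rw [mul_one_div, div_le_iff₀ h2i]; linarith
      · rw [mul_one_div, ← mul_div_assoc, lt_div_iff₀ h2i]; linarith
  have h1 : (((Icc (1 : ℤ) ⌊X⌋).filter (fun x => Odd x ∧ x ∈ S)).card : ℝ)
      ≤ ∑ j ∈ range (J + 1), ((cls S (X * (1 / 2) ^ j) (2 * (X * (1 / 2) ^ j)) 0 1 0).card : ℝ) := by
    have := (card_le_card hsub).trans card_biUnion_le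
    exact_mod_cast this
  refine h1.trans ?_
  have h2 : ∀ j ∈ range (J + 1), ((cls S (X * (1 / 2) ^ j) (2 * (X * (1 / 2) ^ j)) 0 1 0).card : ℝ)
      ≤ ρ * X / 2 * (1 / 2) ^ j := by
    intro j _
    rcases le_or_gt (z / 2) (X * (1 / 2) ^ j) with hc | hc
    · refine (hPB _ hc 1 0 isCoprime_one_left).trans (le_of_eq ?_)
      rw [pow_zero]; ring
    · have : cls S (X * (1 / 2) ^ j) (2 * (X * (1 / 2) ^ j)) 0 1 0 = ∅ := by
        rw [Finset.eq_empty_iff_forall_notMem]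
        intro x hx
        rw [mem_cls] at hx
        have := hS x hx.2.2.1
        linarith [hx.1.2]
      rw [this, card_empty, Nat.cast_zero]
      positivity
  refine (sum_le_sum h2).trans ?_
  rw [← mul_sum]
  have h3 := geom_half (J + 1)
  calc ρ * X / 2 * ∑ j ∈ range (J + 1), (1 / 2 : ℝ) ^ j ≤ ρ * X / 2 * 2 :=
        mul_le_mul_of_nonneg_left h3 (by positivity)
    _ = ρ * X := by ring

theorem sum_scales (B : ℕ) {a : ℝ} (ha : 1 ≤ a) (I : ℕ) :
    ∑ i ∈ range I, 1 / (a + i * Real.log 2) ^ (B + 2) ≤ 4 / a ^ B := by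
  have ha0 : 0 < a := by linarith
  have hterm : ∀ i ∈ range I, 1 / (a + i * Real.log 2) ^ (B + 2)
      ≤ (4 / a ^ B) * (1 / ((i : ℝ) + 1) - 1 / ((i : ℝ) + 1 + 1)) := by
    intro i _
    have hi : (0 : ℝ) ≤ i := Nat.cast_nonneg i
    have h1 : 1 + (i : ℝ) / 2 ≤ a + i * Real.log 2 := by
      have := Real.log_two_gt_d9
      nlinarith
    have h2 : a ≤ a + i * Real.log 2 := by
      have := Real.log_two_gt_d9
      nlinarith
    have h3 : a ^ B * (1 + (i : ℝ) / 2) ^ 2 ≤ (a + i * Real.log 2) ^ (B + 2) := by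
      rw [pow_add]
      exact mul_le_mul (pow_le_pow_left₀ ha0.le h2 B) (pow_le_pow_left₀ (by positivity) h1 2)
        (by positivity) (by positivity)
    have h4 : 1 / (a + i * Real.log 2) ^ (B + 2) ≤ 1 / (a ^ B * (1 + (i : ℝ) / 2) ^ 2) :=
      one_div_le_one_div_of_le (by positivity) h3
    refine h4.trans ?_
    have h5 : 1 / ((i : ℝ) + 1) - 1 / ((i : ℝ) + 1 + 1) = 1 / (((i : ℝ) + 1) * (i + 2)) := by
      field_simp; ring
    rw [h5, div_mul_div_comm, mul_one]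
    rw [div_le_div_iff₀ (by positivity) (by positivity)]
    have h6 : ((i : ℝ) + 1) * (i + 2) ≤ 4 * (1 + (i : ℝ) / 2) ^ 2 := by nlinarith
    have h7 : 0 < a ^ B := by positivity
    nlinarith
  refine (sum_le_sum hterm).trans ?_
  rw [← mul_sum]
  have hT : ∑ i ∈ range I, (1 / ((i : ℝ) + 1) - 1 / ((i : ℝ) + 1 + 1)) ≤ 1 := by
    have h := Finset.sum_range_sub' (fun i : ℕ => 1 / ((i : ℝ) + 1)) I
    push_cast at h
    rw [h]
    have : 0 ≤ 1 / ((I : ℝ) + 1) := by positivity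
    simp only [zero_add, div_one]
    linarith
  calc (4 / a ^ B) * ∑ i ∈ range I, (1 / ((i : ℝ) + 1) - 1 / ((i : ℝ) + 1 + 1)) ≤ (4 / a ^ B) * 1 :=
        mul_le_mul_of_nonneg_left hT (by positivity)
    _ = _ := mul_one _

theorem iter_pow_two {d : ℤ} (M : ℤ) : ∀ (k e : ℕ), k ≤ e → (Tz d)^[k] (2 ^ e * M) = 2 ^ (e - k) * M
  | 0, e, _ => by simp
  | k + 1, e, h => by
    rw [Function.iterate_succ_apply', iter_pow_two M k e (by omega)]
    obtain ⟨f, hf⟩ : ∃ f, e - k = f + 1 := ⟨e - k - 1, by omega⟩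
    have hf' : e - (k + 1) = f := by omega
    rw [hf, hf', pow_succ]
    have h3 : (2 ^ f * 2 * M) % 2 = 0 := by
      rw [mul_right_comm]; exact Int.mul_emod_left _ _
    have := Tz_even (d := d) h3
    linarith

theorem odd_part {n : ℤ} (hn : 0 < n) : ∃ (e : ℕ) (M : ℤ), Odd M ∧ 0 < M ∧ n = 2 ^ e * M := by
  obtain ⟨e, M, hM, h⟩ := Nat.exists_eq_two_pow_mul_odd (n := n.toNat) (by omega)
  refine ⟨e, M, by exact_mod_cast hM, ?_, ?_⟩
  · exact_mod_cast hM.pos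
  · have : ((n.toNat : ℕ) : ℤ) = n := Int.toNat_of_nonneg hn.le
    rw [← this, h]; push_cast; ring

open scoped Classical in
/-- the count of all integers whose trajectory meets `A₀` before going below `Y` -/
theorem HY_count {d : ℤ} (hd : Odd d) (hd3 : IsCoprime d 3) {γ : ℝ} (hγ0 : 0 < γ) (hγ : γ ≤ 1 / 2)
    (B : ℕ) :
    ∃ l₀ K : ℝ, 0 < l₀ ∧ 0 < K ∧ ∀ Y : ℝ, 0 < Y → l₀ ≤ Real.log Y → ∀ A₀ : Set ℤ,
      (∀ X : ℝ, Y ≤ X → ((fA A₀ Y X).card : ℝ) ≤ X * Real.exp (-(Real.log X) ^ (2 * γ))) →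
      ∀ N : ℕ, (((Icc (1 : ℤ) N).filter (fun n => n ∈ HY d A₀ Y)).card : ℝ)
        ≤ K * N / (Real.log Y) ^ B := by
  obtain ⟨l₀, K, hl₀, hK, hPB⟩ := SZ_PB hd hd3 hγ0 hγ (B + 2) (by omega)
  obtain ⟨Q, hQ⟩ : ∃ Q : ℕ, (B : ℝ) / (2 * γ) ≤ Q := exists_nat_ge _
  refine ⟨max l₀ 1, 8 * K + 2 * (Q.factorial * 1 ^ Q), by positivity, by positivity, ?_⟩
  intro Y hY hl A₀ hA₀ N
  set l := Real.log Y with hldef
  have hll : l₀ ≤ l := (le_max_left _ _).trans hl
  have hl1 : 1 ≤ l := (le_max_right _ _).trans hl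
  have hl0 : 0 < l := by linarith
  rcases Nat.eq_zero_or_pos N with rfl | hN
  · simp
  have hNR : (0 : ℝ) < N := by exact_mod_cast hN
  -- odd numbers
  have hoddc : ∀ X : ℝ, 0 < X → (((Icc (1 : ℤ) ⌊X⌋).filter (fun x => Odd x ∧ x ∈ HY d A₀ Y)).card : ℝ)
      ≤ 4 * K / l ^ B * X := by
    intro X hX
    obtain ⟨I, hI⟩ : ∃ I : ℕ, X / Y < 2 ^ I := pow_unbounded_of_one_lt _ (by norm_num)
    rw [div_lt_iff₀ hY] at hI
    have hsub : (Icc (1 : ℤ) ⌊X⌋).filter (fun x => Odd x ∧ x ∈ HY d A₀ Y)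
        ⊆ (range I).biUnion (fun i => (Icc (1 : ℤ) ⌊X⌋).filter
            (fun x => Odd x ∧ x ∈ SZ d A₀ (Y * 2 ^ i))) := by
      intro x hx
      rw [mem_filter] at hx
      obtain ⟨hx1, hx2, hx3⟩ := hx
      obtain ⟨i, hi⟩ := HY_sub hY hx3
      rw [mem_biUnion]
      refine ⟨i, ?_, mem_filter.2 ⟨hx1, hx2, hi⟩⟩
      rw [mem_range]
      by_contra hcon
      push Not at hcon
      have h1 := SZ_ge hi
      rw [Finset.mem_Icc, Int.le_floor] at hx1
      have h2 : (2 : ℝ) ^ I ≤ 2 ^ i := pow_le_pow_right₀ (by norm_num) hcon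
      have h3 : 2 ^ I * Y ≤ Y * 2 ^ i := by
        rw [mul_comm]; exact mul_le_mul_of_nonneg_left h2 hY.le
      linarith [hx1.2]
    have h1 : (((Icc (1 : ℤ) ⌊X⌋).filter (fun x => Odd x ∧ x ∈ HY d A₀ Y)).card : ℝ)
        ≤ ∑ i ∈ range I, (((Icc (1 : ℤ) ⌊X⌋).filter
            (fun x => Odd x ∧ x ∈ SZ d A₀ (Y * 2 ^ i))).card : ℝ) := by
      have := (card_le_card hsub).trans card_biUnion_le
      exact_mod_cast this
    refine h1.trans ?_
    have h2 : ∀ i ∈ range I, (((Icc (1 : ℤ) ⌊X⌋).filter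
            (fun x => Odd x ∧ x ∈ SZ d A₀ (Y * 2 ^ i))).card : ℝ)
        ≤ K * X * (1 / (l + i * Real.log 2) ^ (B + 2)) := by
      intro i _
      have hYi : 0 < Y * 2 ^ i := by positivity
      have hlog : Real.log (Y * 2 ^ i) = l + i * Real.log 2 := by
        rw [Real.log_mul hY.ne' (by positivity), Real.log_pow]
      have hlog2 : 0 ≤ (i : ℝ) * Real.log 2 := by positivity
      have h3 := odd_count (S := SZ d A₀ (Y * 2 ^ i)) (z := Y * 2 ^ i)
        (ρ := K / (Real.log (Y * 2 ^ i)) ^ (B + 2)) (X := X)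
        (by rw [hlog]; positivity) (fun x hx => SZ_ge hx)
        (fun A hA => hPB (Y * 2 ^ i) hYi (by rw [hlog]; linarith) A₀ (by
          intro X' hX'
          have hY2 : Y ≤ Y * 2 ^ i := le_mul_of_one_le_right hY.le (one_le_pow₀ (by norm_num))
          refine le_trans ?_ (hA₀ X' (hY2.trans hX'))
          have : fA A₀ (Y * 2 ^ i) X' ⊆ fA A₀ Y X' := by
            intro x hx
            rw [mem_fA] at hx ⊢
            exact ⟨⟨hY2.trans hx.1.1, hx.1.2⟩, hx.2⟩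
          exact_mod_cast card_le_card this) A hA 0 (by
          rw [Nat.cast_zero]
          apply Real.rpow_nonneg
          apply Real.log_nonneg
          have h2Y : 2 ≤ Y := by
            have := Real.add_one_le_exp l
            rw [Real.exp_log hY] at this
            linarith
          have : (1 : ℝ) ≤ 2 ^ i := one_le_pow₀ (by norm_num)
          nlinarith)) hX
      refine h3.trans (le_of_eq ?_)
      rw [hlog]; ring
    refine (sum_le_sum h2).trans ?_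
    rw [← mul_sum]
    have h4 := sum_scales B hl1 I
    calc K * X * ∑ i ∈ range I, 1 / (l + ↑i * Real.log 2) ^ (B + 2) ≤ K * X * (4 / l ^ B) :=
          mul_le_mul_of_nonneg_left h4 (by positivity)
      _ = _ := by ring
  -- all numbers
  obtain ⟨E, hE⟩ : ∃ E : ℕ, (N : ℝ) < 2 ^ E := pow_unbounded_of_one_lt _ (by norm_num)
  set F₁ : ℕ → Finset ℤ := fun e => ((Icc (1 : ℤ) ⌊(N : ℝ) * (1 / 2) ^ e⌋).filter
    (fun x => Odd x ∧ x ∈ HY d A₀ Y)).image (fun x => 2 ^ e * x) with hF₁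
  set F₂ : ℕ → Finset ℤ := fun e => (fA A₀ Y ((N : ℝ) * (1 / 2) ^ e)).image (fun x => 2 ^ e * x) with hF₂
  have hsub : (Icc (1 : ℤ) N).filter (fun n => n ∈ HY d A₀ Y)
      ⊆ (range E).biUnion F₁ ∪ (range E).biUnion F₂ := by
    intro n hn
    rw [mem_filter, Finset.mem_Icc] at hn
    obtain ⟨⟨hn1, hn2⟩, k, hk1, hk2⟩ := hn
    obtain ⟨e, M, hMo, hM0, hnM⟩ := odd_part (by omega : 0 < n)
    have hnNR : (n : ℝ) ≤ N := by exact_mod_cast hn2
    have hnMR : (n : ℝ) = 2 ^ e * M := by exact_mod_cast hnM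
    have hM1 : (1 : ℝ) ≤ M := by
      have : (1 : ℤ) ≤ M := by omega
      exact_mod_cast this
    have hbnd : ∀ i ≤ e, i < E := by
      intro i hi
      by_contra hcon
      push Not at hcon
      have h1 : (2 : ℝ) ^ E ≤ 2 ^ e := pow_le_pow_right₀ (by norm_num) (by omega)
      have h2 : (2 : ℝ) ^ e ≤ n := by rw [hnMR]; exact le_mul_of_one_le_right (by positivity) hM1
      linarith
    rw [mem_union, mem_biUnion, mem_biUnion]
    rcases le_or_gt e k with hek | hek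
    · left
      refine ⟨e, mem_range.2 (hbnd e le_rfl), ?_⟩
      rw [hF₁]
      simp only [mem_image, mem_filter, Finset.mem_Icc, Int.le_floor]
      have hTe : (Tz d)^[e] n = M := by
        rw [hnM, iter_pow_two M e e le_rfl]; simp
      have hsh : ∀ j, (Tz d)^[j] M = (Tz d)^[j + e] n := by
        intro j
        rw [Function.iterate_add_apply, hTe]
      refine ⟨M, ⟨⟨by omega, ?_⟩, hMo, k - e, ?_, ?_⟩, hnM.symm⟩
      · rw [one_div, inv_pow, ← div_eq_mul_inv, le_div_iff₀ (by positivity)]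
        linarith
      · rw [hsh, Nat.sub_add_cancel hek]; exact hk1
      · intro j hj
        rw [hsh]; exact hk2 _ (by omega)
    · right
      refine ⟨k, mem_range.2 (hbnd k hek.le), ?_⟩
      rw [hF₂]
      simp only [mem_image]
      have hTk : (Tz d)^[k] n = 2 ^ (e - k) * M := by
        rw [hnM, iter_pow_two M k e hek.le]
      refine ⟨2 ^ (e - k) * M, ?_, ?_⟩
      · rw [mem_fA, ← hTk]
        refine ⟨⟨hk2 k le_rfl, ?_⟩, hk1⟩
        rw [hTk, one_div, inv_pow, ← div_eq_mul_inv, le_div_iff₀ (by positivity)]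
        push_cast
        calc (2 : ℝ) ^ (e - k) * M * 2 ^ k = (2 ^ (e - k) * 2 ^ k) * M := by ring
          _ = 2 ^ e * M := by rw [← pow_add, Nat.sub_add_cancel hek.le]
          _ ≤ N := by rw [← hnMR]; exact hnNR
      · rw [← mul_assoc, ← pow_add, Nat.add_sub_cancel' hek.le]; exact hnM.symm
  have hc1 : (((Icc (1 : ℤ) N).filter (fun n => n ∈ HY d A₀ Y)).card : ℝ)
      ≤ ∑ e ∈ range E, ((F₁ e).card : ℝ) + ∑ e ∈ range E, ((F₂ e).card : ℝ) := by
    have h1 := (card_le_card hsub).trans (card_union_le _ _)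
    have h2 : ((range E).biUnion F₁).card ≤ ∑ e ∈ range E, (F₁ e).card := card_biUnion_le
    have h3 : ((range E).biUnion F₂).card ≤ ∑ e ∈ range E, (F₂ e).card := card_biUnion_le
    have h4 := h1.trans (add_le_add h2 h3)
    exact_mod_cast h4
  have hF₁c : ∀ e ∈ range E, ((F₁ e).card : ℝ) ≤ 4 * K / l ^ B * N * (1 / 2) ^ e := by
    intro e _
    have h1 : ((F₁ e).card : ℝ) ≤ (((Icc (1 : ℤ) ⌊(N : ℝ) * (1 / 2) ^ e⌋).filter
      (fun x => Odd x ∧ x ∈ HY d A₀ Y)).card : ℝ) := by exact_mod_cast card_image_le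
    refine h1.trans ((hoddc _ (by positivity)).trans (le_of_eq ?_))
    ring
  have hF₂c : ∀ e ∈ range E, ((F₂ e).card : ℝ) ≤ Real.exp (-l ^ (2 * γ)) * N * (1 / 2) ^ e := by
    intro e _
    have h1 : ((F₂ e).card : ℝ) ≤ ((fA A₀ Y ((N : ℝ) * (1 / 2) ^ e)).card : ℝ) := by
      exact_mod_cast card_image_le
    refine h1.trans ?_
    rcases le_or_gt Y ((N : ℝ) * (1 / 2) ^ e) with hc | hc
    · refine (hA₀ _ hc).trans ?_
      have h2 : Real.exp (-(Real.log ((N : ℝ) * (1 / 2) ^ e)) ^ (2 * γ)) ≤ Real.exp (-l ^ (2 * γ)) := by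
        apply Real.exp_le_exp.2
        apply neg_le_neg
        exact Real.rpow_le_rpow hl0.le (Real.log_le_log hY hc) (by positivity)
      calc (N : ℝ) * (1 / 2) ^ e * Real.exp (-(Real.log ((N : ℝ) * (1 / 2) ^ e)) ^ (2 * γ))
          ≤ (N : ℝ) * (1 / 2) ^ e * Real.exp (-l ^ (2 * γ)) :=
            mul_le_mul_of_nonneg_left h2 (by positivity)
        _ = _ := by ring
    · have : fA A₀ Y ((N : ℝ) * (1 / 2) ^ e) = ∅ := by
        rw [Finset.eq_empty_iff_forall_notMem]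
        intro x hx
        rw [mem_fA] at hx
        linarith [hx.1.1, hx.1.2]
      rw [this, card_empty, Nat.cast_zero]
      positivity
  have hgeo := geom_half E
  have hs1 : ∑ e ∈ range E, ((F₁ e).card : ℝ) ≤ 8 * K * N / l ^ B := by
    refine (sum_le_sum hF₁c).trans ?_
    rw [← mul_sum]
    calc 4 * K / l ^ B * N * ∑ i ∈ range E, (1 / 2 : ℝ) ^ i ≤ 4 * K / l ^ B * N * 2 :=
          mul_le_mul_of_nonneg_left hgeo (by positivity)
      _ = _ := by ring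
  have hexp : Real.exp (-l ^ (2 * γ)) ≤ (Q.factorial * 1 ^ Q) / l ^ B := by
    have h1 := exp_neg_le Q (by norm_num : (0 : ℝ) < 1) (by positivity : 0 < l ^ (2 * γ))
    rw [div_one] at h1
    refine h1.trans ?_
    apply div_le_div_of_nonneg_left (by positivity) (by positivity)
    rw [← Real.rpow_natCast (l ^ (2 * γ)) Q, ← Real.rpow_mul hl0.le, ← Real.rpow_natCast l B]
    apply Real.rpow_le_rpow_of_exponent_le hl1
    rw [div_le_iff₀ (by positivity)] at hQ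
    linarith
  have hs2 : ∑ e ∈ range E, ((F₂ e).card : ℝ) ≤ 2 * (Q.factorial * 1 ^ Q) * N / l ^ B := by
    refine (sum_le_sum hF₂c).trans ?_
    rw [← mul_sum]
    calc Real.exp (-l ^ (2 * γ)) * N * ∑ i ∈ range E, (1 / 2 : ℝ) ^ i
        ≤ Real.exp (-l ^ (2 * γ)) * N * 2 := mul_le_mul_of_nonneg_left hgeo (by positivity)
      _ ≤ (Q.factorial * 1 ^ Q) / l ^ B * N * 2 := by
          apply mul_le_mul_of_nonneg_right _ (by norm_num)
          exact mul_le_mul_of_nonneg_right hexp hNR.le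
      _ = _ := by ring
  calc (((Icc (1 : ℤ) N).filter (fun n => n ∈ HY d A₀ Y)).card : ℝ)
      ≤ 8 * K * N / l ^ B + 2 * (Q.factorial * 1 ^ Q) * N / l ^ B := by linarith
    _ = _ := by ring

end Pool.Agent.R344.TH
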