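import Pool.Agent.R344.TH.F

/-! Thin sets, part G: the map with `3x+d`. -/

set_option autoImplicit false

namespace Pool.Agent.R344.TH

open Finset
open Pool.Agent.H499R2.CO (Tz)

/-- the map `x/2`, `3x+d` -/
def Cz (d : ℤ) (x : ℤ) : ℤ := if x % 2 = 0 then x / 2 else 3 * x + d

/-- `A` and the halves of its elements -/
def hal (A : Set ℤ) : Set ℤ := {x : ℤ | x ∈ A ∨ 2 * x ∈ A}

theorem HY_cons {d : ℤ} {A : Set ℤ} {Y : ℝ} {x : ℤ} (hx : Y ≤ x) (h : Tz d x ∈ HY d A Y) :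
    x ∈ HY d A Y := by
  obtain ⟨k, h1, h2⟩ := h
  refine ⟨k + 1, by rwa [Function.iterate_succ_apply], ?_⟩
  intro j hj
  rcases Nat.eq_zero_or_pos j with rfl | hj0
  · exact hx
  · obtain ⟨i, rfl⟩ : ∃ i, j = i + 1 := ⟨j - 1, by omega⟩
    rw [Function.iterate_succ_apply]
    exact h2 i (by omega)

theorem Cz_even {d x : ℤ} (h : x % 2 = 0) : Cz d x = Tz d x := by
  have := Tz_even (d := d) h
  unfold Cz
  rw [if_pos h]
  omega

theorem Cz_odd {d x : ℤ} (h : x % 2 ≠ 0) : Cz d x = 3 * x + d := by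
  unfold Cz
  rw [if_neg h]

theorem Cz_Cz_odd {d x : ℤ} (hd : d % 2 = 1) (h : x % 2 ≠ 0) : Cz d (Cz d x) = Tz d x := by
  have h1 := Tz_odd hd h
  have h2 := Cz_odd (d := d) h
  rw [h2]
  unfold Cz
  rw [if_pos (by omega)]
  omega

theorem meets_hal {d : ℤ} (hd : d % 2 = 1) {A : Set ℤ} {Y : ℝ} (hY : |(d : ℝ)| ≤ Y) :
    ∀ (k : ℕ) (x : ℤ), (Cz d)^[k] x ∈ A → (∀ j ≤ k, Y ≤ (((Cz d)^[j] x : ℤ) : ℝ)) →
      x ∈ HY d (hal A) Y
  | 0, x, h1, h2 => by
    refine ⟨0, Or.inl h1, fun j hj => ?_⟩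
    have : j = 0 := by omega
    subst this
    exact h2 0 le_rfl
  | 1, x, h1, h2 => by
    have hx := h2 0 (by omega)
    rw [Function.iterate_zero, id] at hx
    have hx1 := h2 1 le_rfl
    rw [Function.iterate_one] at h1 hx1
    apply HY_cons hx
    by_cases hp : x % 2 = 0
    · rw [Cz_even hp] at h1 hx1
      refine ⟨0, Or.inl h1, fun j hj => ?_⟩
      have : j = 0 := by omega
      subst this
      exact hx1
    · have h3 := Tz_odd hd hp
      rw [Cz_odd hp, ← h3] at h1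
      refine ⟨0, Or.inr h1, fun j hj => ?_⟩
      have : j = 0 := by omega
      subst this
      rw [Function.iterate_zero, id]
      have h4 : (2 : ℝ) * ((Tz d x : ℤ) : ℝ) = 3 * x + d := by exact_mod_cast h3
      have := neg_abs_le (d : ℝ)
      linarith
  | k + 2, x, h1, h2 => by
    have hx := h2 0 (by omega)
    rw [Function.iterate_zero, id] at hx
    apply HY_cons hx
    by_cases hp : x % 2 = 0
    · rw [← Cz_even hp]
      apply meets_hal hd hY (k + 1)
      · rwa [Function.iterate_succ_apply] at h1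
      · intro j hj
        have := h2 (j + 1) (by omega)
        rwa [Function.iterate_succ_apply] at this
    · rw [← Cz_Cz_odd hd hp]
      apply meets_hal hd hY k
      · rwa [Function.iterate_succ_apply, Function.iterate_succ_apply] at h1
      · intro j hj
        have := h2 (j + 2) (by omega)
        rwa [Function.iterate_succ_apply, Function.iterate_succ_apply] at this

theorem thin_hal {δ : ℝ} (hδ : 0 < δ) : ∃ l₀ : ℝ, 0 < l₀ ∧ ∀ Y : ℝ, 0 < Y → l₀ ≤ Real.log Y →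
    ∀ A : Set ℤ, (∀ X : ℝ, Y ≤ X → ((fA A Y X).card : ℝ) ≤ X * Real.exp (-(Real.log X) ^ δ)) →
      ∀ X : ℝ, Y ≤ X →
        ((fA (hal A) Y X).card : ℝ) ≤ X * Real.exp (-(Real.log X) ^ (2 * (min δ 1 / 4))) := by
  set s : ℝ := min δ 1 with hs
  have hs0 : 0 < s := lt_min hδ one_pos
  have hsδ : s ≤ δ := min_le_left _ _
  refine ⟨max 1 ((2 : ℝ) ^ (1 / (s / 2))), by positivity, ?_⟩
  intro Y hY hl A hA X hX
  have hX0 : 0 < X := by linarith
  have hlX : max 1 ((2 : ℝ) ^ (1 / (s / 2))) ≤ Real.log X := hl.trans (Real.log_le_log hY hX)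
  have hlX1 : 1 ≤ Real.log X := (le_max_left _ _).trans hlX
  have hlX2 : (2 : ℝ) ^ (1 / (s / 2)) ≤ Real.log X := (le_max_right _ _).trans hlX
  set w := (Real.log X) ^ (2 * (s / 4)) with hw
  have hw2 : 2 ≤ w := by
    have h1 : ((2 : ℝ) ^ (1 / (s / 2))) ^ (2 * (s / 4)) ≤ w :=
      Real.rpow_le_rpow (by positivity) hlX2 (by positivity)
    rw [← Real.rpow_mul (by positivity), show 1 / (s / 2) * (2 * (s / 4)) = 1 by field_simp; norm_num,
      Real.rpow_one] at h1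
    exact h1
  have hwδ : w ^ 2 ≤ (Real.log X) ^ δ := by
    rw [hw, ← Real.rpow_natCast, ← Real.rpow_mul (by linarith)]
    apply Real.rpow_le_rpow_of_exponent_le hlX1
    push_cast
    linarith
  have hsub : fA (hal A) Y X ⊆ fA A Y X ∪ (fA A Y (2 * X)).image (fun x => x / 2) := by
    intro x hx
    rw [mem_fA] at hx
    rw [mem_union, mem_image]
    rcases hx.2 with h | h
    · left; rw [mem_fA]; exact ⟨hx.1, h⟩
    · right
      refine ⟨2 * x, ?_, by omega⟩
      rw [mem_fA]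
      push_cast
      exact ⟨⟨by linarith [hx.1.1], by linarith [hx.1.2]⟩, h⟩
  have h1 : (fA (hal A) Y X).card ≤ (fA A Y X).card + (fA A Y (2 * X)).card :=
    (card_le_card hsub).trans ((card_union_le _ _).trans (Nat.add_le_add_left card_image_le _))
  have h1R : ((fA (hal A) Y X).card : ℝ) ≤ (fA A Y X).card + (fA A Y (2 * X)).card := by
    exact_mod_cast h1
  have h2 := hA X hX
  have h3 := hA (2 * X) (by linarith)
  have h4 : Real.exp (-(Real.log (2 * X)) ^ δ) ≤ Real.exp (-(Real.log X) ^ δ) := by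
    apply Real.exp_le_exp.2
    apply neg_le_neg
    apply Real.rpow_le_rpow (by linarith) _ hδ.le
    exact Real.log_le_log hX0 (by linarith)
  have h5 : ((fA (hal A) Y X).card : ℝ) ≤ X * (3 * Real.exp (-(Real.log X) ^ δ)) := by
    have h6 : 2 * X * Real.exp (-(Real.log (2 * X)) ^ δ) ≤ 2 * X * Real.exp (-(Real.log X) ^ δ) :=
      mul_le_mul_of_nonneg_left h4 (by positivity)
    linarith
  refine h5.trans ?_
  apply mul_le_mul_of_nonneg_left _ hX0.le
  have h7 : (3 : ℝ) ≤ Real.exp 2 := by linarith [Real.add_one_le_exp (2 : ℝ)]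
  calc 3 * Real.exp (-(Real.log X) ^ δ) ≤ Real.exp 2 * Real.exp (-(Real.log X) ^ δ) :=
        mul_le_mul_of_nonneg_right h7 (Real.exp_pos _).le
    _ = Real.exp (2 + -(Real.log X) ^ δ) := by rw [Real.exp_add]
    _ ≤ Real.exp (-w) := by
        apply Real.exp_le_exp.2
        nlinarith

open scoped Classical in
/-- thin sets are avoided by almost all trajectories -/
theorem thin_Cz {d : ℤ} (hd : Odd d) (hd3 : IsCoprime d 3) {δ : ℝ} (hδ : 0 < δ) (B : ℕ) :
    ∃ K : ℝ, 0 < K ∧ ∀ Y : ℝ, 2 ≤ Y → ∀ A : Set ℤ,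
      (∀ X : ℝ, Y ≤ X → ((fA A Y X).card : ℝ) ≤ X * Real.exp (-(Real.log X) ^ δ)) →
      ∀ N : ℕ, (((Icc (1 : ℤ) N).filter (fun n => ∃ k : ℕ, (Cz d)^[k] n ∈ A ∧
        ∀ j ≤ k, Y ≤ (((Cz d)^[j] n : ℤ) : ℝ))).card : ℝ) ≤ K * N / (Real.log Y) ^ B := by
  obtain ⟨l₁, hl₁, hth⟩ := thin_hal hδ
  have hγ0 : 0 < min δ 1 / 4 := by positivity
  have hγ : min δ 1 / 4 ≤ 1 / 2 := by
    have := min_le_right δ 1
    linarith
  obtain ⟨l₀, K, hl₀, hK, hH⟩ := HY_count hd hd3 hγ0 hγ B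
  set L : ℝ := max (max l₀ l₁) |(d : ℝ)| with hL
  have hL0 : 0 < L := by rw [hL]; positivity
  refine ⟨max K (L ^ B), by positivity, ?_⟩
  intro Y hY A hA N
  have hlog : 0 < Real.log Y := Real.log_pos (by linarith)
  have hN0 : (0 : ℝ) ≤ N := Nat.cast_nonneg N
  rcases le_or_gt L (Real.log Y) with hc | hc
  · have h1 := hH Y (by linarith) ((le_max_left _ _).trans ((le_max_left _ _).trans hc)) (hal A)
      (hth Y (by linarith) ((le_max_right _ _).trans ((le_max_left _ _).trans hc)) A hA) N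
    have hdY : |(d : ℝ)| ≤ Y := by
      have h2 : |(d : ℝ)| ≤ Real.log Y := (le_max_right _ _).trans hc
      have h3 := Real.add_one_le_exp (Real.log Y)
      rw [Real.exp_log (by linarith)] at h3
      linarith
    have h2 : (((Icc (1 : ℤ) N).filter (fun n => ∃ k : ℕ, (Cz d)^[k] n ∈ A ∧
        ∀ j ≤ k, Y ≤ (((Cz d)^[j] n : ℤ) : ℝ))).card : ℝ)
        ≤ (((Icc (1 : ℤ) N).filter (fun n => n ∈ HY d (hal A) Y)).card : ℝ) := by
      have : (Icc (1 : ℤ) N).filter (fun n => ∃ k : ℕ, (Cz d)^[k] n ∈ A ∧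
        ∀ j ≤ k, Y ≤ (((Cz d)^[j] n : ℤ) : ℝ)) ⊆ (Icc (1 : ℤ) N).filter (fun n => n ∈ HY d (hal A) Y) := by
        intro x hx
        rw [mem_filter] at hx ⊢
        obtain ⟨hx1, k, hx2, hx3⟩ := hx
        exact ⟨hx1, meets_hal (Int.odd_iff.1 hd) hdY k x hx2 hx3⟩
      exact_mod_cast card_le_card this
    refine h2.trans (h1.trans ?_)
    apply div_le_div_of_nonneg_right _ (by positivity)
    exact mul_le_mul_of_nonneg_right (le_max_left _ _) hN0
  · have h1 : (((Icc (1 : ℤ) N).filter (fun n => ∃ k : ℕ, (Cz d)^[k] n ∈ A ∧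
        ∀ j ≤ k, Y ≤ (((Cz d)^[j] n : ℤ) : ℝ))).card : ℝ) ≤ N := by
      have : ((Icc (1 : ℤ) N).filter (fun n => ∃ k : ℕ, (Cz d)^[k] n ∈ A ∧
        ∀ j ≤ k, Y ≤ (((Cz d)^[j] n : ℤ) : ℝ))).card ≤ N := by
        refine (card_filter_le _ _).trans ?_
        rw [Int.card_Icc]; omega
      exact_mod_cast this
    refine h1.trans ?_
    rw [le_div_iff₀ (by positivity), mul_comm]
    apply mul_le_mul_of_nonneg_right _ hN0
    exact (pow_le_pow_left₀ hlog.le hc.le B).trans (le_max_right _ _)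

end Pool.Agent.R344.TH
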